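import Pool.Agent.X62.BF.Cplx

/-! Averages along the products of two odd integers. -/

set_option autoImplicit false

namespace Pool.Agent.X62.BF

open Finset Filter Topology Pool.Agent.H499R2.ND
open scoped Classical

/-- the average of `F N n` at the products `n = r a b` of odd integers is `V` -/
def AvP (F : ℕ → ℕ → ℝ) (V : ℝ) : Prop := ∀ ε : ℝ, 0 < ε → ∃ ϑ : ℝ, 0 < ϑ ∧ ∀ α : ℝ, 0 < α →
    ∃ N0 : ℕ, ∀ N M r : ℕ, N0 ≤ N → (N : ℝ) ^ α ≤ M → (M : ℝ) ≤ (N : ℝ) ^ ϑ → r % 2 = 1 →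
    (r : ℝ) ≤ (N : ℝ) ^ ϑ → ∀ u v : ℕ → ℂ, (∀ a, ‖u a‖ ≤ 1) → (∀ b, ‖v b‖ ≤ 1) →
    (∀ a, Even a → u a = 0) → (∀ b, Even b → v b = 0) →
    ‖∑ a ∈ Ioc M (2 * M), ∑ b ∈ Icc 1 N, F N (r * a * b) * (u a * v b) -
      V * ((∑ a ∈ Ioc M (2 * M), u a) * ∑ b ∈ Icc 1 N, v b)‖ ≤ ε * (M * N)

/-- frequency at the products of odd integers -/
def PO (P : ℕ → Prop) (l : ℝ) : Prop := ∀ ε : ℝ, 0 < ε → ∃ ϑ : ℝ, 0 < ϑ ∧ ∀ α : ℝ, 0 < α →
    ∃ N0 : ℕ, ∀ N M r : ℕ, N0 ≤ N → (N : ℝ) ^ α ≤ M → (M : ℝ) ≤ (N : ℝ) ^ ϑ → r % 2 = 1 →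
    (r : ℝ) ≤ (N : ℝ) ^ ϑ → ∀ u v : ℕ → ℂ, (∀ a, ‖u a‖ ≤ 1) → (∀ b, ‖v b‖ ≤ 1) →
    (∀ a, Even a → u a = 0) → (∀ b, Even b → v b = 0) →
    ‖∑ p ∈ (Ioc M (2 * M) ×ˢ Icc 1 N).filter (fun p => P (r * p.1 * p.2)), u p.1 * v p.2 -
      l * ((∑ a ∈ Ioc M (2 * M), u a) * ∑ b ∈ Icc 1 N, v b)‖ ≤ ε * (M * N)

theorem PO_of {P P' : ℕ → Prop} {l : ℝ} (h : PL P' l) (n0 : ℕ) (hP : ∀ n, n0 ≤ n → Odd n → (P' n ↔ P n)) :
    PO P l := by
  intro ε hε
  obtain ⟨ϑ, h0, H⟩ := PLC_sums h ε hε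
  refine ⟨ϑ, h0, fun α hα => ?_⟩
  obtain ⟨N0, H⟩ := H α hα
  have tl : Tendsto (fun N : ℕ => (N : ℝ) ^ α) atTop atTop :=
    (tendsto_rpow_atTop hα).comp tendsto_natCast_atTop_atTop
  obtain ⟨N3, hN3⟩ := eventually_atTop.1 (tl.eventually_ge_atTop (n0 : ℝ))
  refine ⟨max N0 N3, fun N M r hN hM1 hM2 hr hr2 u v hu hv hu2 hv2 => ?_⟩
  refine le_trans (le_of_eq ?_) (H N M r ((le_max_left _ _).trans hN) hM1 hM2 hr hr2 u v hu hv)
  congr 2
  rw [sum_filter, sum_filter]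
  apply sum_congr rfl
  intro p hp
  rw [mem_product, mem_Ioc, mem_Icc] at hp
  by_cases ha : Even p.1
  · rw [hu2 _ ha]; simp
  by_cases hb : Even p.2
  · rw [hv2 _ hb]; simp
  have ho : Odd (r * p.1 * p.2) :=
    ((Nat.odd_iff.2 hr).mul (Nat.not_even_iff_odd.1 ha)).mul (Nat.not_even_iff_odd.1 hb)
  have hn0M : n0 ≤ M := by exact_mod_cast (hN3 N ((le_max_right _ _).trans hN)).trans hM1
  have hge : n0 ≤ r * p.1 * p.2 := by
    have h1r : 1 ≤ r := by omega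
    calc n0 ≤ p.1 := by omega
      _ = 1 * p.1 * 1 := by ring
      _ ≤ r * p.1 * p.2 := Nat.mul_le_mul (Nat.mul_le_mul_right _ h1r) hp.2.1
  have h1 := hP _ hge ho
  by_cases h2 : P (r * p.1 * p.2)
  · rw [if_pos h2, if_pos (h1.2 h2)]
  · rw [if_neg h2, if_neg (fun h3 => h2 (h1.1 h3))]

theorem card_box (M N : ℕ) : ((#(Ioc M (2 * M) ×ˢ Icc 1 N) : ℕ) : ℝ) = M * N := by
  rw [card_product, Nat.card_Ioc, Nat.card_Icc, show 2 * M - M = M by omega, Nat.add_sub_cancel]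
  push_cast
  ring

theorem avg_prod {F : ℕ → ℕ → ℝ} {B v1 v2 V : ℝ} (hB : 0 < B) (hF : ∀ N n, |F N n| ≤ B) (hv1 : |v1| ≤ B)
    (hv2 : |v2| ≤ B) (H : ∀ η : ℝ, 0 < η → ∃ (P1 P2 : ℕ → Prop) (d1 d2 τ : ℝ) (n0 : ℕ), PL P1 d1 ∧ PL P2 d2 ∧
      d1 + d2 = 1 ∧ V = d1 * v1 + d2 * v2 ∧ (∀ n, P1 n → ¬ P2 n) ∧ 0 < τ ∧
      ∀ N n : ℕ, n0 ≤ N → n0 ≤ n → Odd n → |Real.log n - Real.log N| ≤ τ * Real.log N →
        (P1 n → |F N n - v1| ≤ η) ∧ (P2 n → |F N n - v2| ≤ η)) : AvP F V := by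
  intro ε hε
  obtain ⟨P1, P2, d1, d2, τ, n0, h1, h2, hd, hV, hdis, hτ, h3⟩ := H (ε / 8) (by positivity)
  -- small parameters
  set ε1 : ℝ := ε / (16 * B) with hε1
  have hε10 : 0 < ε1 := by positivity
  set κ : ℝ := min (ε / (16 * B)) 1 with hκ
  have hκ0 : 0 < κ := lt_min (by positivity) one_pos
  obtain ⟨ϑ1, t1, k1⟩ := PLC_sums h1 (ε / (8 * B)) (by positivity)
  obtain ⟨ϑ2, t2, k2⟩ := PLC_sums h2 (ε / (8 * B)) (by positivity)
  obtain ⟨ϑ3, t3, k3⟩ := PL_sets h1 ε1 hε10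
  obtain ⟨ϑ4, t4, k4⟩ := PL_sets h2 ε1 hε10
  refine ⟨min (min ϑ1 ϑ2) (min (min ϑ3 ϑ4) (τ / 4)),
    lt_min (lt_min t1 t2) (lt_min (lt_min t3 t4) (by positivity)), fun α hα => ?_⟩
  obtain ⟨N1, k1⟩ := k1 α hα
  obtain ⟨N2, k2⟩ := k2 α hα
  obtain ⟨N3, k3⟩ := k3 α hα
  obtain ⟨N4, k4⟩ := k4 α hα
  have tl : Tendsto (fun N : ℕ => (N : ℝ) ^ α) atTop atTop :=
    (tendsto_rpow_atTop hα).comp tendsto_natCast_atTop_atTop
  obtain ⟨N5, hN5⟩ := eventually_atTop.1 (tl.eventually_ge_atTop (n0 : ℝ))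
  have tl2 : Tendsto (fun N : ℕ => Real.log N) atTop atTop :=
    Real.tendsto_log_atTop.comp tendsto_natCast_atTop_atTop
  obtain ⟨N6, hN6⟩ := eventually_atTop.1 (tl2.eventually_ge_atTop (max 1 ((Real.log 2 + Real.log (1 / κ)) / (τ / 2))))
  refine ⟨max (max N1 N2) (max (max N3 N4) (max (max N5 N6) (max n0 1))),
    fun N M r hN hM1 hM2 hr hr2 u v hu hv hue hve => ?_⟩
  have g1 : N1 ≤ N := by omega
  have g2 : N2 ≤ N := by omega
  have g3 : N3 ≤ N := by omega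
  have g4 : N4 ≤ N := by omega
  have g5 : N5 ≤ N := by omega
  have g6 : N6 ≤ N := by omega
  have g7 : n0 ≤ N := by omega
  have g8 : 1 ≤ N := by omega
  have hNr : (1 : ℝ) ≤ N := by exact_mod_cast g8
  have hN0 : (0 : ℝ) < N := by linarith
  have mm : ∀ t : ℝ, min (min ϑ1 ϑ2) (min (min ϑ3 ϑ4) (τ / 4)) ≤ t → ∀ x : ℝ,
      x ≤ (N : ℝ) ^ min (min ϑ1 ϑ2) (min (min ϑ3 ϑ4) (τ / 4)) → x ≤ (N : ℝ) ^ t := fun t ht x hx =>
    hx.trans (Real.rpow_le_rpow_of_exponent_le hNr ht)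
  have e1 := (min_le_left (min ϑ1 ϑ2) (min (min ϑ3 ϑ4) (τ / 4))).trans (min_le_left ϑ1 ϑ2)
  have e2 := (min_le_left (min ϑ1 ϑ2) (min (min ϑ3 ϑ4) (τ / 4))).trans (min_le_right ϑ1 ϑ2)
  have e3 := ((min_le_right (min ϑ1 ϑ2) (min (min ϑ3 ϑ4) (τ / 4))).trans (min_le_left _ _)).trans (min_le_left ϑ3 ϑ4)
  have e4 := ((min_le_right (min ϑ1 ϑ2) (min (min ϑ3 ϑ4) (τ / 4))).trans (min_le_left _ _)).trans (min_le_right ϑ3 ϑ4)
  have e5 := (min_le_right (min ϑ1 ϑ2) (min (min ϑ3 ϑ4) (τ / 4))).trans (min_le_right _ _)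
  have f1 := k1 N M r g1 hM1 (mm _ e1 _ hM2) hr (mm _ e1 _ hr2) u v hu hv
  have f2 := k2 N M r g2 hM1 (mm _ e2 _ hM2) hr (mm _ e2 _ hr2) u v hu hv
  set Bx : Finset (ℕ × ℕ) := Ioc M (2 * M) ×ˢ Icc 1 N with hBx
  have f3 : |((Bx.filter (fun p => P1 (r * p.1 * p.2))).card : ℝ) - d1 * (M * N)| ≤ ε1 * (M * N) := by
    have := k3 N M r g3 hM1 (mm _ e3 _ hM2) hr (mm _ e3 _ hr2) (Ioc M (2 * M)) (Icc 1 N) subset_rfl subset_rfl
    rw [Nat.card_Ioc, Nat.card_Icc, show 2 * M - M = M by omega, Nat.add_sub_cancel] at this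
    exact this
  have f4 : |((Bx.filter (fun p => P2 (r * p.1 * p.2))).card : ℝ) - d2 * (M * N)| ≤ ε1 * (M * N) := by
    have := k4 N M r g4 hM1 (mm _ e4 _ hM2) hr (mm _ e4 _ hr2) (Ioc M (2 * M)) (Icc 1 N) subset_rfl subset_rfl
    rw [Nat.card_Ioc, Nat.card_Icc, show 2 * M - M = M by omega, Nat.add_sub_cancel] at this
    exact this
  have hMN : (0 : ℝ) ≤ (M : ℝ) * N := by positivity
  have hn0M : n0 ≤ M := by exact_mod_cast (hN5 N g5).trans hM1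
  have hL := hN6 N g6
  have hL1 : 1 ≤ Real.log N := (le_max_left _ _).trans hL
  have hL2 : (Real.log 2 + Real.log (1 / κ)) ≤ τ / 2 * Real.log N := by
    have := (le_max_right _ _).trans hL
    rw [div_le_iff₀ (by positivity)] at this
    linarith
  have hl2 : 0 < Real.log 2 := Real.log_pos (by norm_num)
  have hlκ : 0 ≤ Real.log (1 / κ) := Real.log_nonneg (by
    rw [le_div_iff₀ hκ0, one_mul]; exact min_le_right _ _)
  -- the logarithms
  have hlog : ∀ p ∈ Bx, κ * N < p.2 → |Real.log (r * p.1 * p.2 : ℕ) - Real.log N| ≤ τ * Real.log N := by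
    intro p hp hb
    rw [hBx, mem_product, mem_Ioc, mem_Icc] at hp
    have ha0 : (0 : ℝ) < p.1 := by exact_mod_cast (by omega : 0 < p.1)
    have hb0 : (0 : ℝ) < p.2 := by exact_mod_cast (by omega : 0 < p.2)
    have hr0 : (0 : ℝ) < r := by exact_mod_cast (by omega : 0 < r)
    have q1 : Real.log (r * p.1 * p.2 : ℕ) = Real.log r + Real.log p.1 + Real.log p.2 := by
      push_cast
      rw [Real.log_mul (by positivity) (by positivity), Real.log_mul (by positivity) (by positivity)]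
    have q2 : 0 ≤ Real.log r := Real.log_natCast_nonneg r
    have q3 : 0 ≤ Real.log p.1 := Real.log_natCast_nonneg _
    have q4 : Real.log r ≤ τ / 4 * Real.log N := by
      have := Real.log_le_log hr0 (mm _ e5 _ hr2)
      rwa [Real.log_rpow hN0] at this
    have q5 : Real.log p.1 ≤ Real.log 2 + τ / 4 * Real.log N := by
      have s1 : (p.1 : ℝ) ≤ 2 * (N : ℝ) ^ (τ / 4) := by
        have : (p.1 : ℝ) ≤ 2 * M := by exact_mod_cast hp.1.2
        have := mm _ e5 _ hM2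
        linarith
      have s2 := Real.log_le_log ha0 s1
      rwa [Real.log_mul (by norm_num) (by positivity), Real.log_rpow hN0] at s2
    have q6 : Real.log p.2 ≤ Real.log N := Real.log_le_log hb0 (by exact_mod_cast hp.2.2)
    have q7 : Real.log N - Real.log (1 / κ) ≤ Real.log p.2 := by
      have s2 := Real.log_le_log (by positivity) hb.le
      rw [Real.log_mul hκ0.ne' (by positivity)] at s2
      rw [one_div, Real.log_inv]
      linarith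
    rw [q1, abs_le]
    constructor <;> nlinarith
  -- the bad pairs
  set Bad : Finset (ℕ × ℕ) := (Bx.filter (fun p => ¬ P1 (r * p.1 * p.2) ∧ ¬ P2 (r * p.1 * p.2))) ∪
    (Bx.filter (fun p => (p.2 : ℝ) ≤ κ * N)) with hBad
  have hbad : (#Bad : ℝ) ≤ (2 * ε1 + κ) * (M * N) := by
    have c1 : (#Bad : ℝ) ≤ #(Bx.filter (fun p => ¬ P1 (r * p.1 * p.2) ∧ ¬ P2 (r * p.1 * p.2))) +
        #(Bx.filter (fun p => (p.2 : ℝ) ≤ κ * N)) := by exact_mod_cast card_union_le _ _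
    have c2 : (#(Bx.filter (fun p => ¬ P1 (r * p.1 * p.2) ∧ ¬ P2 (r * p.1 * p.2))) : ℝ) =
        M * N - #(Bx.filter (fun p => P1 (r * p.1 * p.2))) - #(Bx.filter (fun p => P2 (r * p.1 * p.2))) := by
      have s1 := card_filter_add_card_filter_not (s := Bx) (fun p => P1 (r * p.1 * p.2))
      have s2 := card_filter_add_card_filter_not (s := Bx.filter (fun p => ¬ P1 (r * p.1 * p.2)))
        (fun p => P2 (r * p.1 * p.2))
      rw [filter_filter, filter_filter] at s2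
      have s3 : Bx.filter (fun p => ¬ P1 (r * p.1 * p.2) ∧ P2 (r * p.1 * p.2)) =
          Bx.filter (fun p => P2 (r * p.1 * p.2)) := by
        apply filter_congr
        intro p _
        exact ⟨fun h => h.2, fun h => ⟨fun h' => hdis _ h' h, h⟩⟩
      rw [s3] at s2
      have s4 := card_box M N
      rw [← hBx] at s4
      rw [← s4]
      have s5 : #Bx = #(Bx.filter (fun p => P1 (r * p.1 * p.2))) + (#(Bx.filter (fun p => P2 (r * p.1 * p.2))) +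
        #(Bx.filter (fun p => ¬ P1 (r * p.1 * p.2) ∧ ¬ P2 (r * p.1 * p.2)))) := by omega
      rw [s5]; push_cast; ring
    have c3 : (#(Bx.filter (fun p => (p.2 : ℝ) ≤ κ * N)) : ℝ) ≤ κ * (M * N) := by
      have s1 : Bx.filter (fun p => (p.2 : ℝ) ≤ κ * N) ⊆ Ioc M (2 * M) ×ˢ Icc 1 ⌊κ * N⌋₊ := by
        intro p hp
        rw [mem_filter, hBx, mem_product, mem_Ioc, mem_Icc] at hp
        rw [mem_product, mem_Ioc, mem_Icc]
        exact ⟨hp.1.1, hp.1.2.1, Nat.le_floor hp.2⟩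
      have s2 := card_le_card s1
      rw [card_product, Nat.card_Ioc, Nat.card_Icc, show 2 * M - M = M by omega, Nat.add_sub_cancel] at s2
      have s3 : ((M * ⌊κ * N⌋₊ : ℕ) : ℝ) ≤ κ * (M * N) := by
        push_cast
        have := Nat.floor_le (show 0 ≤ κ * (N : ℝ) by positivity)
        have hM0 : (0 : ℝ) ≤ M := Nat.cast_nonneg _
        nlinarith
      have s4 : (#(Bx.filter (fun p => (p.2 : ℝ) ≤ κ * N)) : ℝ) ≤ ((M * ⌊κ * N⌋₊ : ℕ) : ℝ) := by exact_mod_cast s2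
      linarith
    rw [abs_le] at f3 f4
    have : (M : ℝ) * N = d1 * (M * N) + d2 * (M * N) := by rw [← add_mul, hd, one_mul]
    linarith [f3.1, f4.1]
  -- the main estimate
  have key : ‖∑ p ∈ Bx, (F N (r * p.1 * p.2) : ℂ) * (u p.1 * v p.2) -
      (v1 * ∑ p ∈ Bx.filter (fun p => P1 (r * p.1 * p.2)), u p.1 * v p.2 +
       v2 * ∑ p ∈ Bx.filter (fun p => P2 (r * p.1 * p.2)), u p.1 * v p.2)‖ ≤
      ε / 8 * (M * N) + 2 * B * #Bad := by
    have s0 : ∑ p ∈ Bx, (F N (r * p.1 * p.2) : ℂ) * (u p.1 * v p.2) -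
      (v1 * ∑ p ∈ Bx.filter (fun p => P1 (r * p.1 * p.2)), u p.1 * v p.2 +
       v2 * ∑ p ∈ Bx.filter (fun p => P2 (r * p.1 * p.2)), u p.1 * v p.2) =
       ∑ p ∈ Bx, (((F N (r * p.1 * p.2) - ((if P1 (r * p.1 * p.2) then v1 else 0) +
          (if P2 (r * p.1 * p.2) then v2 else 0)) : ℝ) : ℂ) * (u p.1 * v p.2)) := by
      rw [sum_filter, sum_filter, mul_sum, mul_sum, ← sum_add_distrib, ← sum_sub_distrib]
      apply sum_congr rfl
      intro p _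
      by_cases hp1 : P1 (r * p.1 * p.2) <;> by_cases hp2 : P2 (r * p.1 * p.2) <;>
        simp only [hp1, hp2, if_true, if_false] <;> push_cast <;> ring
    rw [s0]
    have s1 : ∀ p ∈ Bx, ‖(((F N (r * p.1 * p.2) - ((if P1 (r * p.1 * p.2) then v1 else 0) +
          (if P2 (r * p.1 * p.2) then v2 else 0)) : ℝ) : ℂ) * (u p.1 * v p.2))‖ ≤
          ε / 8 + if p ∈ Bad then 2 * B else 0 := by
      intro p hp
      have hp' := hp
      rw [hBx, mem_product, mem_Ioc, mem_Icc] at hp'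
      by_cases ha : Even p.1
      · rw [hue _ ha, zero_mul, mul_zero, norm_zero]
        split_ifs <;> positivity
      by_cases hb : Even p.2
      · rw [hve _ hb, mul_zero, mul_zero, norm_zero]
        split_ifs <;> positivity
      have ho : Odd (r * p.1 * p.2) :=
        ((Nat.odd_iff.2 hr).mul (Nat.not_even_iff_odd.1 ha)).mul (Nat.not_even_iff_odd.1 hb)
      have hge : n0 ≤ r * p.1 * p.2 := by
        have h1r : 1 ≤ r := by omega
        calc n0 ≤ p.1 := by omega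
          _ = 1 * p.1 * 1 := by ring
          _ ≤ r * p.1 * p.2 := Nat.mul_le_mul (Nat.mul_le_mul_right _ h1r) hp'.2.1
      rw [norm_mul, norm_mul, Complex.norm_real, Real.norm_eq_abs]
      have hw : ‖u p.1‖ * ‖v p.2‖ ≤ 1 := mul_le_one₀ (hu _) (norm_nonneg _) (hv _)
      have hw0 : 0 ≤ ‖u p.1‖ * ‖v p.2‖ := by positivity
      have hred : ∀ x c : ℝ, |x| ≤ c → |x| * (‖u p.1‖ * ‖v p.2‖) ≤ c := fun x c hx =>
        (mul_le_of_le_one_right (abs_nonneg _) hw).trans hx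
      apply hred
      by_cases hpB : p ∈ Bad
      · rw [if_pos hpB]
        have hFn := hF N (r * p.1 * p.2)
        rw [abs_le] at hFn hv1 hv2 ⊢
        by_cases hp1 : P1 (r * p.1 * p.2)
        · have hp2 := hdis _ hp1
          rw [if_pos hp1, if_neg hp2]
          constructor <;> linarith
        · rw [if_neg hp1]
          split_ifs <;> constructor <;> linarith
      · rw [if_neg hpB, add_zero]
        rw [hBad, mem_union, mem_filter, mem_filter] at hpB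
        push Not at hpB
        obtain ⟨q1, q2⟩ := hpB
        have q3 := h3 N (r * p.1 * p.2) g7 hge ho (hlog p hp (q2 hp))
        by_cases hp1 : P1 (r * p.1 * p.2)
        · have hp2 := hdis _ hp1
          rw [if_pos hp1, if_neg hp2, add_zero]
          exact q3.1 hp1
        · have hp2 := q1 hp hp1
          rw [if_neg hp1, if_pos hp2, zero_add]
          exact q3.2 hp2
    refine (norm_sum_le _ _).trans ((sum_le_sum s1).trans ?_)
    rw [sum_add_distrib, sum_const, nsmul_eq_mul, ← sum_filter, sum_const, nsmul_eq_mul]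
    have s4 := card_box M N
    rw [← hBx] at s4
    rw [s4]
    have s5 : (#(Bx.filter (fun p => p ∈ Bad)) : ℝ) ≤ #Bad := by
      exact_mod_cast card_le_card (fun p hp => (mem_filter.1 hp).2)
    nlinarith
  -- conclusion
  have hbk : 2 * B * (#Bad : ℝ) ≤ 3 * ε / 8 * (M * N) := by
    have s1 : 2 * B * (2 * ε1 + κ) ≤ 3 * ε / 8 := by
      have s2 : κ ≤ ε / (16 * B) := min_le_left _ _
      have s3 : 2 * B * (2 * ε1 + κ) ≤ 2 * B * (3 * (ε / (16 * B))) := by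
        apply mul_le_mul_of_nonneg_left _ (by positivity)
        rw [hε1]; linarith
      have s4 : 2 * B * (3 * (ε / (16 * B))) = 3 * ε / 8 := by field_simp; ring
      linarith
    have s2 := mul_le_mul_of_nonneg_left hbad (show 0 ≤ 2 * B by positivity)
    have s3 := mul_le_mul_of_nonneg_right s1 hMN
    linarith
  have hs1 : ‖(v1 : ℂ) * ∑ p ∈ Bx.filter (fun p => P1 (r * p.1 * p.2)), u p.1 * v p.2 -
      v1 * (d1 * ((∑ a ∈ Ioc M (2 * M), u a) * ∑ b ∈ Icc 1 N, v b))‖ ≤ ε / 8 * (M * N) := by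
    rw [← mul_sub, norm_mul, Complex.norm_real, Real.norm_eq_abs]
    calc |v1| * _ ≤ B * (ε / (8 * B) * (M * N)) := mul_le_mul hv1 f1 (norm_nonneg _) hB.le
      _ = ε / 8 * (M * N) := by field_simp
  have hs2 : ‖(v2 : ℂ) * ∑ p ∈ Bx.filter (fun p => P2 (r * p.1 * p.2)), u p.1 * v p.2 -
      v2 * (d2 * ((∑ a ∈ Ioc M (2 * M), u a) * ∑ b ∈ Icc 1 N, v b))‖ ≤ ε / 8 * (M * N) := by
    rw [← mul_sub, norm_mul, Complex.norm_real, Real.norm_eq_abs]
    calc |v2| * _ ≤ B * (ε / (8 * B) * (M * N)) := mul_le_mul hv2 f2 (norm_nonneg _) hB.le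
      _ = ε / 8 * (M * N) := by field_simp
  have e0 : ∑ a ∈ Ioc M (2 * M), ∑ b ∈ Icc 1 N, (F N (r * a * b) : ℂ) * (u a * v b) =
      ∑ p ∈ Bx, (F N (r * p.1 * p.2) : ℂ) * (u p.1 * v p.2) := by
    rw [hBx, sum_product]
  rw [e0, hV]
  set X : ℂ := (∑ a ∈ Ioc M (2 * M), u a) * ∑ b ∈ Icc 1 N, v b with hX
  have e6 : ∑ p ∈ Bx, (F N (r * p.1 * p.2) : ℂ) * (u p.1 * v p.2) - ((d1 * v1 + d2 * v2 : ℝ) : ℂ) * X =
      (∑ p ∈ Bx, (F N (r * p.1 * p.2) : ℂ) * (u p.1 * v p.2) -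
      (v1 * ∑ p ∈ Bx.filter (fun p => P1 (r * p.1 * p.2)), u p.1 * v p.2 +
       v2 * ∑ p ∈ Bx.filter (fun p => P2 (r * p.1 * p.2)), u p.1 * v p.2)) +
      ((v1 : ℂ) * ∑ p ∈ Bx.filter (fun p => P1 (r * p.1 * p.2)), u p.1 * v p.2 - v1 * (d1 * X)) +
      ((v2 : ℂ) * ∑ p ∈ Bx.filter (fun p => P2 (r * p.1 * p.2)), u p.1 * v p.2 - v2 * (d2 * X)) := by
    push_cast; ring
  rw [e6]
  refine (norm_add₃_le).trans ?_
  nlinarith

end Pool.Agent.X62.BF
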