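import Pool.Agent.X62.BF.Laws
import Pool.Agent.X62.BE.Bil2
import Pool.Agent.Y964.LW.C8

/-! Laws of the entrance times into cycles at products, both signs. -/

set_option autoImplicit false

namespace Pool.Agent.X62.BF

open Finset Filter Topology
open Pool.Agent.H499R2.CO (Tz)
open Pool.Agent.H499R2.ND (Dn Td Phi Phi_continuous phi_cdf Inv HD)
open Pool.Agent.H499R2.LT (od od_add Dn_iff)
open Pool.Agent.H499R2.HL (bk bo nu rr nu_pos rr_pos sqrt_rr)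
open Pool.Agent.W26.HN (E E_unique exists_E E_two E_of_two od_two side_two)
open Pool.Agent.Y964.LW (Bd mkFamE thr mul01 phi01 bo_thr)
open scoped Classical

/-- relative laws of the entrance times -/
theorem pl_entr {s : ℤ} (hs : s = 1 ∨ s = -1) {F : Finset ℤ} (hF : ∀ y ∈ F, y % 2 = 1) {B : ℕ} (hB : Bd F B) :
    ∃ δ : ℝ, 0 ≤ δ ∧ δ ≤ 1 ∧ ((∃ a ∈ F, 0 < s * a ∧ ¬ (3 : ℤ) ∣ a) → 0 < δ) ∧
    Dn (fun n : ℕ => ∃ k : ℕ, E F k (s * n)) δ ∧
    PL (fun n : ℕ => ∃ k : ℕ, E F k (s * n)) δ ∧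
    ∀ (m : ℕ) (b : ℤ), 1 ≤ m →
      PL (fun n : ℕ => ∃ k : ℕ, E F k (s * n) ∧ od 1 k (s * n) ≡ b [ZMOD m]) (δ / m) ∧
      ∀ x : ℝ, PL (fun n : ℕ => ∃ k : ℕ, E F k (s * n) ∧ ((od 1 k (s * n) : ℝ) ≤ bo x (Real.log n) ∧
        od 1 k (s * n) ≡ b [ZMOD m])) (δ / m * Phi x) := by
  obtain ⟨δ, h0, h1, h2, h3⟩ := Pool.Agent.W26.HN.law_k hs F
  have hE : Dn (fun n : ℕ => ∃ k : ℕ, E F k (s * n)) δ := by
    refine Dn_iff (fun n _ => ?_) h2
    constructor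
    · rintro ⟨k, hk⟩
      obtain ⟨j, _, hj⟩ := exists_E hk
      exact ⟨j, hj⟩
    · rintro ⟨k, hk⟩; exact ⟨k, hk.1⟩
  have hδ1 : δ ≤ 1 := by
    refine le_of_tendsto' hE fun N => ?_
    rcases Nat.eq_zero_or_pos N with h | h
    · subst h; simp
    · rw [div_le_one (by exact_mod_cast h)]
      exact Pool.Agent.H499R2.ND.cnt_le _ N
  have hdiv : ∀ m : ℕ, 1 ≤ m → 0 ≤ δ / (m : ℝ) ∧ δ / (m : ℝ) ≤ 1 := by
    intro m hm
    have hm1 : (1 : ℝ) ≤ m := by exact_mod_cast hm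
    refine ⟨by positivity, ?_⟩
    rw [div_le_one (by positivity)]
    linarith
  have hrr := rr_pos
  have hl2 : 0 < Real.log 2 := Real.log_pos (by norm_num)
  refine ⟨δ, h0, hδ1, h1, hE, ?_, fun m b hm => ⟨?_, fun x => ?_⟩⟩
  · have h5 := Fam_PL hs (mkFamE hs hF hB (ι := Unit) (fun _ _ _ _ => True) id 0 1 1 (fun _ _ => δ) le_rfl one_pos
      (fun _ _ _ _ _ _ h => h) (fun _ _ _ _ => Iff.rfl) (fun _ _ => rfl) (fun _ _ => ⟨h0, hδ1⟩)
      (fun _ => continuous_const) (fun _ _ => by simpa using hE)) () 0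
    refine PL_congr 0 (fun n _ => ?_) h5
    show (∃ k, E F k (s * n) ∧ True) ↔ _
    simp
  · have h5 := Fam_PL hs (mkFamE hs hF hB (ι := ℤ) (fun i _ _ o => o ≡ i [ZMOD m])
      id 0 1 1 (fun _ _ => δ / (m : ℝ)) le_rfl one_pos
      (fun _ _ _ _ _ _ h => h) (fun i _ k o => Iff.rfl) (fun _ _ => rfl) (fun _ _ => hdiv m hm)
      (fun _ => continuous_const)
      (fun i _ => (h3 m i hm).1)) b 0
    exact h5
  · have h5 := Fam_PL hs (mkFamE hs hF hB (ι := ℤ) (fun i τ _ o => (o : ℝ) ≤ τ ∧ o ≡ i [ZMOD m])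
      id 0 (1 / Real.log (4 / 3)) (Real.log 2 * rr) (fun _ x => δ / (m : ℝ) * Phi x)
      le_rfl (by positivity)
      (fun _ _ _ _ _ h1 h => ⟨h.1.trans h1, h.2⟩) (fun i τ k o => by
        rw [sub_zero]; rfl) (fun _ _ => rfl)
      (fun _ x => mul01 (hdiv m hm) (phi01 x))
      (fun _ => Phi_continuous.const_mul _)
      (fun i x => by
        refine Dn_iff (fun n _ => exists_congr fun k => ?_) (Pool.Agent.W26.HN.law_o hs F (h3 m i hm).2 x)
        rw [← bo_thr]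
        tauto)) b x
    refine PL_congr 0 (fun n _ => ?_) h5
    rw [bo_thr]
    exact Iff.rfl


/-- frequency of invariant sets at products -/
theorem PL_inv {s : ℤ} (hs : s = 1 ∨ s = -1) {S : Set ℤ} (hS : Inv 1 S) {δ : ℝ} (h : HD s S δ) :
    PL (fun n : ℕ => s * (n : ℤ) ∈ S) δ := by
  intro ε hε
  obtain ⟨ϑ, h0, -, H⟩ := Pool.Agent.X62.BE.bil hs (lt_min hε one_pos) (min_le_right ε 1)
  refine ⟨ϑ, h0, fun α hα => ?_⟩
  obtain ⟨N0, -, H⟩ := H α hα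
  refine ⟨N0, fun N hN Q hQ1 hQ2 r hr hr2 u v hu hv => ?_⟩
  have h1 := H N hN S hS δ h Q hQ1 hQ2 r (by omega) hr2 u v hu hv
  have h2 : min ε 1 * ((Q : ℝ) * N) ≤ ε * (Q * N) := mul_le_mul_of_nonneg_right (min_le_left _ _) (by positivity)
  refine le_trans (le_of_eq ?_) (h1.trans h2)
  congr 1

/-- the law of large numbers, general form -/
theorem lln2 {P : ℕ → Prop} {f : ℕ → ℕ → Prop} {g : ℕ → ℕ → ℝ} {α σ δ η : ℝ} (hσ : 0 < σ) (hδ0 : 0 ≤ δ)
    (hδ1 : δ ≤ 1) (hη : 0 < η)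
    (h1 : ∀ x, PL (fun n => ∃ k, f k n ∧ g k n ≤ thr α σ x (Real.log n)) (δ * Phi x))
    (h2 : PL P δ) (hP : ∀ n, (∃ k, f k n) → P n) :
    PL (fun n => ∃ k, f k n ∧ |g k n - α * Real.log n| ≤ η * Real.log n) δ := by
  have t1 : Tendsto Phi atTop (𝓝 1) := by
    have := ProbabilityTheory.tendsto_cdf_atTop (ProbabilityTheory.gaussianReal 0 1)
    refine this.congr fun x => ?_
    rw [phi_cdf]
  have t2 : Tendsto Phi atBot (𝓝 0) := by
    have := ProbabilityTheory.tendsto_cdf_atBot (ProbabilityTheory.gaussianReal 0 1)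
    refine this.congr fun x => ?_
    rw [phi_cdf]
  refine PL_squeeze fun ζ hζ => ?_
  obtain ⟨x1, hx1⟩ := eventually_atTop.1 (t1.eventually_const_lt (show 1 - ζ / 2 < 1 by linarith))
  obtain ⟨x2, hx2⟩ := eventually_atBot.1 (t2.eventually_lt_const (show (0 : ℝ) < ζ / 2 by linarith))
  set X : ℝ := max (max x1 (-x2)) 1 with hX
  have hX0 : 0 < X := lt_of_lt_of_le one_pos (le_max_right _ _)
  have a1 := hx1 X ((le_max_left _ _).trans (le_max_left _ _))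
  have a2 := hx2 (-X) (by
    have : -x2 ≤ X := (le_max_right _ _).trans (le_max_left _ _)
    linarith)
  have hmono : ∀ n : ℕ, (∃ k, f k n ∧ g k n ≤ thr α σ (-X) (Real.log n)) →
      (∃ k, f k n ∧ g k n ≤ thr α σ X (Real.log n)) := by
    rintro n ⟨k, hk, h3⟩
    refine ⟨k, hk, h3.trans ?_⟩
    unfold thr
    have : 0 ≤ σ * Real.sqrt (Real.log n) := by positivity
    nlinarith
  have hd := PL_diff (h1 (-X)) (h1 X) hmono (R := fun n => (∃ k, f k n ∧ g k n ≤ thr α σ X (Real.log n)) ∧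
    ¬ (∃ k, f k n ∧ g k n ≤ thr α σ (-X) (Real.log n))) (fun _ => Iff.rfl)
  have tl : Tendsto (fun n : ℕ => Real.sqrt (Real.log n)) atTop atTop :=
    Real.tendsto_sqrt_atTop.comp (Real.tendsto_log_atTop.comp tendsto_natCast_atTop_atTop)
  obtain ⟨n0, hn0⟩ := eventually_atTop.1 (tl.eventually_ge_atTop (X * σ / η))
  refine ⟨_, _, _, δ, n0, fun n hn h => ?_, fun n _ h => ?_, hd, h2, ?_, le_rfl, ?_⟩
  · obtain ⟨⟨k, hk, h3⟩, h4⟩ := h
    refine ⟨k, hk, ?_⟩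
    have h5 : ¬ g k n ≤ thr α σ (-X) (Real.log n) := fun h6 => h4 ⟨k, hk, h6⟩
    push Not at h5
    have h6 := hn0 n hn
    rw [div_le_iff₀ hη] at h6
    have h7 : 0 ≤ Real.log n := Real.log_natCast_nonneg n
    have h8 := Real.sq_sqrt h7
    have h9 := Real.sqrt_nonneg (Real.log n)
    have h10 : X * (σ * Real.sqrt (Real.log n)) ≤ η * Real.log n := by
      have h11 := mul_le_mul_of_nonneg_right h6 h9
      nlinarith
    unfold thr at h3 h5
    rw [abs_le]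
    constructor <;> linarith
  · obtain ⟨k, hk, _⟩ := h
    exact hP n ⟨k, hk⟩
  · have b1 := (phi01 X).2
    have b2 := (phi01 (-X)).1
    nlinarith
  · have b1 := (phi01 X).2
    have b2 := (phi01 (-X)).1
    nlinarith

end Pool.Agent.X62.BF
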