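import Pool.Agent.X62.BF.Cplx
import Pool.Agent.X62.BE.Edge

/-! Joint laws at the pairwise products of several integers. -/

set_option autoImplicit false

namespace Pool.Agent.X62.BF

open Finset Filter Topology Pool.Agent.H499R2.ND
open scoped Classical

theorem pos_min {ι : Type} [Finite ι] (t : ι → ℝ) (ht : ∀ i, 0 < t i) : ∃ s : ℝ, 0 < s ∧ ∀ i, s ≤ t i := by
  have h : ∀ᶠ s in 𝓝[>] (0 : ℝ), (0 < s ∧ ∀ i, s ≤ t i) := by
    refine (eventually_mem_nhdsWithin).and (eventually_all.2 fun i => ?_)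
    filter_upwards [Ioo_mem_nhdsGT (ht i)] with s hs
    exact hs.2.le
  exact h.exists

/-- arbitrary sets, pairwise products -/
theorem joint_sets (k : ℕ) (E : Fin k × Fin k → ℕ → Prop) (η : Fin k × Fin k → ℝ)
    (hη : ∀ e, 0 ≤ η e ∧ η e ≤ 1) (hE : ∀ e, PL (E e) (η e)) {ε : ℝ} (hε : 0 < ε) :
    ∃ ϑ : ℝ, 0 < ϑ ∧ ∀ α : ℝ, 0 < α → ∃ N0 : ℕ, ∀ P : Fin k → ℕ, (∀ i, N0 ≤ P i) →
    (∀ i j, i < j → (P j : ℝ) ^ α ≤ P i ∧ (P i : ℝ) ≤ (P j : ℝ) ^ ϑ) →
    ∀ X : Fin k → Finset ℕ, (∀ i, X i ⊆ Ioc (P i) (2 * P i)) →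
    |(#{x ∈ Fintype.piFinset X | ∀ i j : Fin k, i < j → E (i, j) (x i * x j)} : ℝ) -
      (∏ e ∈ univ.filter (fun e : Fin k × Fin k => e.1 < e.2), η e) * ∏ i, (#(X i) : ℝ)| ≤ ε * ∏ i, (P i : ℝ) := by
  have hk0 : (0 : ℝ) ≤ k := Nat.cast_nonneg _
  have hM0 : (0 : ℝ) < (k : ℝ) ^ 2 + 1 := by positivity
  obtain ⟨ε', hε'⟩ : ∃ ε' : ℝ, ε' = ε / ((k : ℝ) ^ 2 + 1) := ⟨_, rfl⟩
  have hε'0 : 0 < ε' := by rw [hε']; positivity
  have hεM : ((k : ℝ) ^ 2 + 1) * ε' = ε := by rw [hε']; field_simp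
  have H := fun e => PL_pair (hE e) ε' hε'0
  choose ϑ hϑ H using H
  obtain ⟨ϑm, hm0, hm⟩ := pos_min ϑ hϑ
  refine ⟨ϑm, hm0, fun α hα => ?_⟩
  have H := fun e => H e α hα
  choose N H using H
  refine ⟨max 1 (univ.sup N), fun P hP hPP X hX => ?_⟩
  have hP1 : ∀ i, 1 ≤ P i := fun i => le_trans (le_max_left _ _) (hP i)
  have hP1r : ∀ i, (1 : ℝ) ≤ P i := fun i => by exact_mod_cast hP1 i
  have hPN : ∀ e i, N e ≤ P i := fun e i =>
    (le_sup (f := N) (mem_univ e)).trans ((le_max_right _ _).trans (hP i))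
  set R : Fin k → Finset ℕ := fun i => Ioc (P i) (2 * P i) with hR
  have hRc : ∀ i, #(R i) = P i := fun i => by simp only [hR]; rw [Nat.card_Ioc]; omega
  have hRn : ∀ i, (R i).Nonempty := fun i => by rw [← card_pos, hRc]; exact hP1 i
  set Ed : Finset (Fin k × Fin k) := univ.filter (fun e : Fin k × Fin k => e.1 < e.2) with hEd
  set Pr : ℝ := ∏ i, (P i : ℝ) with hPr
  have hPrR : ∏ l, (#(R l) : ℝ) = Pr := by
    rw [hPr]; apply prod_congr rfl; intro i _; rw [hRc]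
  have hPr0 : 0 ≤ Pr := prod_nonneg fun i _ => by have := hP1r i; linarith
  have c1 := Pool.Agent.X62.BE.edges R hRn (ε := ε') (fun e a b => ic (E e) (a * b))
    (fun e a b => by
      rw [abs_of_nonneg (ic_nonneg _ _)]; exact ic_le_one _ _) η
    (fun e => by rw [abs_of_nonneg (hη e).1]; exact (hη e).2) Ed (fun e he => (mem_filter.1 he).2)
    (fun e he u v hu hv => by
      have hlt := (mem_filter.1 he).2
      have := H e (P e.1) (P e.2) (hPN e _) (hPP _ _ hlt).1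
        ((hPP _ _ hlt).2.trans (Real.rpow_le_rpow_of_exponent_le (hP1r _) (hm e))) u v hu hv
      rw [hRc, hRc]
      exact this)
    (fun i a => if a ∈ X i then 1 else 0)
    (fun i a => by beta_reduce; split_ifs <;> simp)
  rw [hPrR] at c1
  have e1 : ∑ x ∈ Fintype.piFinset R, ∏ l, (if x l ∈ X l then (1 : ℝ) else 0) = ∏ i, (#(X i) : ℝ) := by
    rw [← prod_univ_sum R (fun l a => if a ∈ X l then (1 : ℝ) else 0)]
    apply prod_congr rfl
    intro i _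
    rw [← sum_filter, sum_const, nsmul_eq_mul, mul_one]
    congr 2
    ext a
    rw [mem_filter]
    exact ⟨fun h => h.2, fun h => ⟨hX i h, h⟩⟩
  have e2 : (#{x ∈ Fintype.piFinset X | ∀ i j : Fin k, i < j → E (i, j) (x i * x j)} : ℝ) =
      ∑ x ∈ Fintype.piFinset R, (∏ e ∈ Ed, ic (E e) (x e.1 * x e.2)) * ∏ l, (if x l ∈ X l then (1 : ℝ) else 0) := by
    have hsub : {x ∈ Fintype.piFinset X | ∀ i j : Fin k, i < j → E (i, j) (x i * x j)} =
        {x ∈ Fintype.piFinset R | (∀ i, x i ∈ X i) ∧ ∀ i j : Fin k, i < j → E (i, j) (x i * x j)} := by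
      ext x
      rw [mem_filter, mem_filter, Fintype.mem_piFinset, Fintype.mem_piFinset]
      constructor
      · rintro ⟨h1, h2⟩
        exact ⟨fun i => hX i (h1 i), h1, h2⟩
      · rintro ⟨_, h1, h2⟩
        exact ⟨h1, h2⟩
    rw [hsub, card_filter]
    push_cast
    apply sum_congr rfl
    intro x _
    by_cases h : (∀ i, x i ∈ X i) ∧ ∀ i j : Fin k, i < j → E (i, j) (x i * x j)
    · rw [if_pos h, prod_eq_one, prod_eq_one, one_mul]
      · intro i _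
        rw [if_pos (h.1 i)]
      · intro e he
        unfold ic
        rw [if_pos (h.2 e.1 e.2 (mem_filter.1 he).2)]
    · rw [if_neg h]
      rw [not_and_or] at h
      rcases h with h | h
      · push Not at h
        obtain ⟨i, hi⟩ := h
        rw [prod_eq_zero (i := i) (s := univ) (mem_univ _) (by rw [if_neg hi]), mul_zero]
      · push Not at h
        obtain ⟨i, j, hij, hi⟩ := h
        rw [prod_eq_zero (i := ((i, j) : Fin k × Fin k)) (s := Ed) (mem_filter.2 ⟨mem_univ _, hij⟩)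
          (by unfold ic; exact if_neg hi), zero_mul]
  rw [e2]
  rw [e1] at c1
  refine c1.trans ?_
  have hEc : (#Ed : ℝ) ≤ (k : ℝ) ^ 2 := by
    have h1 : #Ed ≤ k ^ 2 := by
      refine (card_le_univ _).trans ?_
      rw [Fintype.card_prod, Fintype.card_fin, sq]
    exact_mod_cast h1
  have hεPr : 0 ≤ ε' * Pr := by positivity
  have c7 : (#Ed : ℝ) * (ε' * Pr) ≤ (k : ℝ) ^ 2 * (ε' * Pr) := mul_le_mul_of_nonneg_right hEc hεPr
  have hfin : ε * Pr = (k : ℝ) ^ 2 * (ε' * Pr) + ε' * Pr := by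
    rw [← hεM]; ring
  linarith

/-- joint law of the integers and of their pairwise products -/
theorem joint_law (k : ℕ) (D : Fin k → ℕ → Prop) (δ : Fin k → ℝ) (hδ : ∀ i, 0 ≤ δ i ∧ δ i ≤ 1)
    (hD : ∀ i, Dn (D i) (δ i)) (E : Fin k × Fin k → ℕ → Prop) (η : Fin k × Fin k → ℝ)
    (hη : ∀ e, 0 ≤ η e ∧ η e ≤ 1) (hE : ∀ e, PL (E e) (η e)) {ε : ℝ} (hε : 0 < ε) :
    ∃ ϑ : ℝ, 0 < ϑ ∧ ∀ α : ℝ, 0 < α → ∃ N0 : ℕ, ∀ P : Fin k → ℕ, (∀ i, N0 ≤ P i) →
    (∀ i j, i < j → (P j : ℝ) ^ α ≤ P i ∧ (P i : ℝ) ≤ (P j : ℝ) ^ ϑ) →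
    |(#{x ∈ Fintype.piFinset (fun i => Ioc (P i) (2 * P i)) | (∀ i, D i (x i)) ∧
        ∀ i j : Fin k, i < j → E (i, j) (x i * x j)} : ℝ) -
      ((∏ i, δ i) * ∏ e ∈ univ.filter (fun e : Fin k × Fin k => e.1 < e.2), η e) * ∏ i, (P i : ℝ)| ≤
      ε * ∏ i, (P i : ℝ) := by
  obtain ⟨ϑ, h0, H⟩ := joint_sets k E η hη hE (ε := ε / 2) (by positivity)
  refine ⟨ϑ, h0, fun α hα => ?_⟩
  obtain ⟨N1, H⟩ := H α hα
  have H2 := fun i => Dn_dyadic (hD i) (ε := ε / (2 * (k + 1))) (by positivity)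
  choose N2 H2 using H2
  refine ⟨max N1 (univ.sup N2), fun P hP hPP => ?_⟩
  have hP1 : ∀ i, N1 ≤ P i := fun i => le_trans (le_max_left _ _) (hP i)
  have hP2 : ∀ i, N2 i ≤ P i := fun i =>
    (le_sup (f := N2) (mem_univ i)).trans ((le_max_right _ _).trans (hP i))
  have c1 := H P hP1 hPP (fun i => (Ioc (P i) (2 * P i)).filter (D i)) (fun i => filter_subset _ _)
  have e1 : {x ∈ Fintype.piFinset (fun i => (Ioc (P i) (2 * P i)).filter (D i)) |
      ∀ i j : Fin k, i < j → E (i, j) (x i * x j)} =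
      {x ∈ Fintype.piFinset (fun i => Ioc (P i) (2 * P i)) | (∀ i, D i (x i)) ∧
        ∀ i j : Fin k, i < j → E (i, j) (x i * x j)} := by
    ext x
    simp only [mem_filter, Fintype.mem_piFinset]
    constructor
    · rintro ⟨h1, h2⟩
      exact ⟨fun i => (h1 i).1, fun i => (h1 i).2, h2⟩
    · rintro ⟨h1, h2, h3⟩
      exact ⟨fun i => ⟨h1 i, h2 i⟩, h3⟩
  rw [e1] at c1
  have e2 : ∀ i, (#((Ioc (P i) (2 * P i)).filter (D i)) : ℝ) = ∑ a ∈ Ioc (P i) (2 * P i), ic (D i) a := by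
    intro i
    rw [card_filter]
    push_cast
    rfl
  have hPr0 : 0 ≤ ∏ i, (P i : ℝ) := prod_nonneg fun i _ => Nat.cast_nonneg _
  have c2 := Pool.Agent.X62.BE.prod_close (fun i => (P i : ℝ)) (fun i => Nat.cast_nonneg _)
    (fun i => (#((Ioc (P i) (2 * P i)).filter (D i)) : ℝ)) δ (ε := ε / (2 * (k + 1))) (by positivity)
    (fun i => by
      rw [abs_of_nonneg (Nat.cast_nonneg _)]
      have : #((Ioc (P i) (2 * P i)).filter (D i)) ≤ P i := by
        refine (card_filter_le _ _).trans ?_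
        rw [Nat.card_Ioc]; omega
      exact_mod_cast this)
    (fun i => by rw [abs_of_nonneg (hδ i).1]; exact (hδ i).2)
    (fun i => by
      rw [e2]
      exact H2 i (P i) (hP2 i))
  set Ed : Finset (Fin k × Fin k) := univ.filter (fun e : Fin k × Fin k => e.1 < e.2) with hEd
  have hηP : |∏ e ∈ Ed, η e| ≤ 1 := by
    rw [abs_of_nonneg (prod_nonneg fun e _ => (hη e).1)]
    exact prod_le_one (fun e _ => (hη e).1) (fun e _ => (hη e).2)
  have c3 : |(∏ e ∈ Ed, η e) * ∏ i, (#((Ioc (P i) (2 * P i)).filter (D i)) : ℝ) -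
      ((∏ i, δ i) * ∏ e ∈ Ed, η e) * ∏ i, (P i : ℝ)| ≤ ε / 2 * ∏ i, (P i : ℝ) := by
    have e : (∏ e ∈ Ed, η e) * ∏ i, (#((Ioc (P i) (2 * P i)).filter (D i)) : ℝ) -
      ((∏ i, δ i) * ∏ e ∈ Ed, η e) * ∏ i, (P i : ℝ) = (∏ e ∈ Ed, η e) *
        (∏ i, (#((Ioc (P i) (2 * P i)).filter (D i)) : ℝ) - (∏ i, δ i) * ∏ i, (P i : ℝ)) := by ring
    rw [e, abs_mul]
    refine (mul_le_of_le_one_left (abs_nonneg _) hηP).trans (c2.trans ?_)
    have hk0 : (0 : ℝ) ≤ k := Nat.cast_nonneg _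
    have h1 : (k : ℝ) * (ε / (2 * (k + 1)) * ∏ i, (P i : ℝ)) = (k / (k + 1)) * (ε / 2 * ∏ i, (P i : ℝ)) := by
      field_simp
    rw [h1]
    apply mul_le_of_le_one_left (by positivity)
    rw [div_le_one (by positivity)]; linarith
  rw [abs_le] at c1 c3 ⊢
  constructor <;> linarith [c1.1, c1.2, c3.1, c3.2]

end Pool.Agent.X62.BF
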