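import Pool.Agent.H499R2.LT.Phi

set_option autoImplicit false

namespace Pool.Agent.X62.BF

open Pool.Agent.H499R2.ND

theorem Phi_strict : StrictMono Phi := by
  apply strictMono_of_hasDerivAt_pos (f' := fun z => Real.exp (-z ^ 2 / 2) / Real.sqrt (2 * Real.pi))
  · intro z
    exact Pool.Agent.H499R2.LT.Phi_deriv z
  · intro z
    positivity

end Pool.Agent.X62.BF
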