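import Pool.Agent.X62.BF.Avg

/-! Arbitrary sets of odd integers. -/

set_option autoImplicit false

namespace Pool.Agent.X62.BF

open Finset Filter Topology
open scoped Classical

theorem PO_sets {P : ℕ → Prop} {l : ℝ} (h : PO P l) (ε : ℝ) (hε : 0 < ε) : ∃ ϑ : ℝ, 0 < ϑ ∧
    ∀ α : ℝ, 0 < α → ∃ X₀ : ℕ, ∀ X M r : ℕ, X₀ ≤ X → (X : ℝ) ^ α ≤ M → (M : ℝ) ≤ (X : ℝ) ^ ϑ → r % 2 = 1 →
    (r : ℝ) ≤ (X : ℝ) ^ ϑ → ∀ A B : Set ℕ, (∀ a ∈ A, M < a ∧ a ≤ 2 * M ∧ Odd a) →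
    (∀ b ∈ B, b ≤ X ∧ Odd b) →
    |({p : ℕ × ℕ | p.1 ∈ A ∧ p.2 ∈ B ∧ P (r * p.1 * p.2)}.ncard : ℝ) -
      l * (A.ncard * B.ncard)| ≤ ε * (M * X) := by
  obtain ⟨ϑ, h0, H⟩ := h ε hε
  refine ⟨ϑ, h0, fun α hα => ?_⟩
  obtain ⟨N0, H⟩ := H α hα
  refine ⟨N0, fun X M r hX hM1 hM2 hr hr2 A B hA hB => ?_⟩
  set A' : Finset ℕ := (Ioc M (2 * M)).filter (fun a => a ∈ A) with hA'
  set B' : Finset ℕ := (Icc 1 X).filter (fun b => b ∈ B) with hB'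
  have eA : (A' : Set ℕ) = A := by
    ext a
    rw [hA', coe_filter]
    constructor
    · rintro ⟨_, h⟩; exact h
    · intro h; exact ⟨mem_Ioc.2 ⟨(hA a h).1, (hA a h).2.1⟩, h⟩
  have eB : (B' : Set ℕ) = B := by
    ext a
    rw [hB', coe_filter]
    constructor
    · rintro ⟨_, h⟩; exact h
    · intro h; exact ⟨mem_Icc.2 ⟨(hB a h).2.pos, (hB a h).1⟩, h⟩
  have h1 := H X M r hX hM1 hM2 hr hr2 (fun a => if a ∈ A then 1 else 0) (fun b => if b ∈ B then 1 else 0)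
    (fun a => by beta_reduce; split_ifs <;> simp) (fun a => by beta_reduce; split_ifs <;> simp)
    (fun a ha => if_neg fun h => (Nat.not_odd_iff_even.2 ha) (hA a h).2.2)
    (fun a ha => if_neg fun h => (Nat.not_odd_iff_even.2 ha) (hB a h).2)
  have sA : ∑ a ∈ Ioc M (2 * M), (if a ∈ A then (1 : ℂ) else 0) = A.ncard := by
    rw [← sum_filter, ← hA', sum_const, nsmul_eq_mul, mul_one, ← Set.ncard_coe_finset, eA]
  have sB : ∑ a ∈ Icc 1 X, (if a ∈ B then (1 : ℂ) else 0) = B.ncard := by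
    rw [← sum_filter, ← hB', sum_const, nsmul_eq_mul, mul_one, ← Set.ncard_coe_finset, eB]
  have sP : ∑ p ∈ (Ioc M (2 * M) ×ˢ Icc 1 X).filter (fun p => P (r * p.1 * p.2)),
      ((if p.1 ∈ A then (1 : ℂ) else 0) * (if p.2 ∈ B then 1 else 0)) =
      ({p : ℕ × ℕ | p.1 ∈ A ∧ p.2 ∈ B ∧ P (r * p.1 * p.2)}.ncard : ℂ) := by
    have e1 : ∀ p : ℕ × ℕ, ((if p.1 ∈ A then (1 : ℂ) else 0) * (if p.2 ∈ B then 1 else 0)) =
        if p.1 ∈ A ∧ p.2 ∈ B then 1 else 0 := by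
      intro p
      by_cases h1 : p.1 ∈ A <;> by_cases h2 : p.2 ∈ B <;> simp [h1, h2]
    simp only [e1]
    rw [← sum_filter, filter_filter, sum_const, nsmul_eq_mul, mul_one, ← Set.ncard_coe_finset]
    congr 2
    ext p
    rw [coe_filter]
    constructor
    · rintro ⟨_, h2, h3⟩; exact ⟨h3.1, h3.2, h2⟩
    · rintro ⟨h2, h3, h4⟩
      exact ⟨mem_product.2 ⟨mem_Ioc.2 ⟨(hA _ h2).1, (hA _ h2).2.1⟩,
        mem_Icc.2 ⟨(hB _ h3).2.pos, (hB _ h3).1⟩⟩, h4, h2, h3⟩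
  rw [sA, sB, sP] at h1
  rw [← Real.norm_eq_abs, ← Complex.norm_real]
  refine le_trans (le_of_eq ?_) h1
  congr 1
  push_cast
  rfl

theorem PO_exists {P : ℕ → Prop} {l : ℝ} (h : PO P l) (c : ℝ) (hc : 0 < c) (hl : 0 < l) : ∃ ϑ : ℝ, 0 < ϑ ∧
    ∀ α : ℝ, 0 < α → ∃ X₀ : ℕ, ∀ X M r : ℕ, X₀ ≤ X → (X : ℝ) ^ α ≤ M → (M : ℝ) ≤ (X : ℝ) ^ ϑ → r % 2 = 1 →
    (r : ℝ) ≤ (X : ℝ) ^ ϑ → ∀ A B : Set ℕ, (∀ a ∈ A, M < a ∧ a ≤ 2 * M ∧ Odd a) →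
    (∀ b ∈ B, b ≤ X ∧ Odd b) → c * M ≤ A.ncard → c * X ≤ B.ncard → ∃ a ∈ A, ∃ b ∈ B, P (r * a * b) := by
  obtain ⟨ϑ, h0, H⟩ := PO_sets h (l * c ^ 2 / 2) (by positivity)
  refine ⟨ϑ, h0, fun α hα => ?_⟩
  obtain ⟨X0, H⟩ := H α hα
  refine ⟨max X0 1, fun X M r hX hM1 hM2 hr hr2 A B hA hB hAc hBc => ?_⟩
  have h1 := H X M r ((le_max_left _ _).trans hX) hM1 hM2 hr hr2 A B hA hB
  have hX1 : (1 : ℝ) ≤ X := by exact_mod_cast (le_max_right _ _).trans hX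
  have hM0 : (0 : ℝ) < M := lt_of_lt_of_le (Real.rpow_pos_of_pos (by linarith) _) hM1
  by_contra hcon
  push Not at hcon
  have h2 : {p : ℕ × ℕ | p.1 ∈ A ∧ p.2 ∈ B ∧ P (r * p.1 * p.2)} = ∅ := by
    rw [Set.eq_empty_iff_forall_notMem]
    rintro p ⟨h3, h4, h5⟩
    exact hcon p.1 h3 p.2 h4 h5
  rw [h2, Set.ncard_empty, abs_le] at h1
  have h3 : (c * M) * (c * X) ≤ (A.ncard : ℝ) * B.ncard := by
    apply mul_le_mul hAc hBc (by positivity) (by positivity)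
  have h4 := mul_le_mul_of_nonneg_left h3 hl.le
  have h5 : 0 < l * (c ^ 2 * (M * X)) := by positivity
  have h6 := h1.1
  push_cast at h6
  nlinarith

end Pool.Agent.X62.BF
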