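import Pool.Agent.X62.BF.Rules

/-! Laws along the products of two integers: complex weights, dyadic intervals. -/

set_option autoImplicit false

namespace Pool.Agent.X62.BF

open Finset Filter Topology Pool.Agent.H499R2.ND
open scoped Classical

/-- the product law with complex weights -/
def PLC (P : ℕ → Prop) (l : ℝ) : Prop := ∀ ε : ℝ, 0 < ε → ∃ ϑ : ℝ, 0 < ϑ ∧ ∀ α : ℝ, 0 < α → ∃ N0 : ℕ,
  ∀ N : ℕ, N0 ≤ N → ∀ Q : ℕ, (N : ℝ) ^ α ≤ Q → (Q : ℝ) ≤ (N : ℝ) ^ ϑ → ∀ r : ℕ, r % 2 = 1 →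
  (r : ℝ) ≤ (N : ℝ) ^ ϑ → ∀ u v : ℕ → ℂ, (∀ a, ‖u a‖ ≤ 1) → (∀ b, ‖v b‖ ≤ 1) →
  ‖∑ a ∈ Ioc Q (2 * Q), ∑ b ∈ Icc 1 N, u a * v b * ((ic P (a * (r * b)) - l : ℝ) : ℂ)‖ ≤ ε * (Q * N)

theorem PL_complex {P : ℕ → Prop} {l : ℝ} (h : PL P l) : PLC P l := by
  intro ε hε
  obtain ⟨ϑ, h0, H⟩ := h (ε / 4) (by positivity)
  refine ⟨ϑ, h0, fun α hα => ?_⟩
  obtain ⟨N0, H⟩ := H α hα
  refine ⟨N0, fun N hN Q hQ1 hQ2 r hr hr2 u v hu hv => ?_⟩
  have H := H N hN Q hQ1 hQ2 r hr hr2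
  set F : (ℕ → ℝ) → (ℕ → ℝ) → ℝ := fun u v => SQ Q N r u v (fun n => ic P n - l) with hF
  have hre : ∀ z : ℂ, ‖z‖ ≤ 1 → |z.re| ≤ 1 := fun z hz => (Complex.abs_re_le_norm z).trans hz
  have him : ∀ z : ℂ, ‖z‖ ≤ 1 → |z.im| ≤ 1 := fun z hz => (Complex.abs_im_le_norm z).trans hz
  have h1 : |F (fun a => (u a).re) (fun b => (v b).re)| ≤ ε / 4 * (Q * N) :=
    H (fun a => (u a).re) (fun b => (v b).re) (fun a => hre _ (hu a)) (fun b => hre _ (hv b))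
  have h2 : |F (fun a => (u a).im) (fun b => (v b).im)| ≤ ε / 4 * (Q * N) :=
    H (fun a => (u a).im) (fun b => (v b).im) (fun a => him _ (hu a)) (fun b => him _ (hv b))
  have h3 : |F (fun a => (u a).re) (fun b => (v b).im)| ≤ ε / 4 * (Q * N) :=
    H (fun a => (u a).re) (fun b => (v b).im) (fun a => hre _ (hu a)) (fun b => him _ (hv b))
  have h4 : |F (fun a => (u a).im) (fun b => (v b).re)| ≤ ε / 4 * (Q * N) :=
    H (fun a => (u a).im) (fun b => (v b).re) (fun a => him _ (hu a)) (fun b => hre _ (hv b))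
  have e : ∑ a ∈ Finset.Ioc Q (2 * Q), ∑ b ∈ Finset.Icc 1 N,
      u a * v b * ((ic P (a * (r * b)) - l : ℝ) : ℂ) =
      ((F (fun a => (u a).re) (fun b => (v b).re) : ℝ) : ℂ) - ((F (fun a => (u a).im) (fun b => (v b).im) : ℝ) : ℂ) +
      (((F (fun a => (u a).re) (fun b => (v b).im) : ℝ) : ℂ) + ((F (fun a => (u a).im) (fun b => (v b).re) : ℝ) : ℂ)) * Complex.I := by
    simp only [hF, SQ, Complex.ofReal_sum]
    rw [← Finset.sum_sub_distrib, ← Finset.sum_add_distrib, Finset.sum_mul, ← Finset.sum_add_distrib]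
    apply Finset.sum_congr rfl
    intro a _
    rw [← Finset.sum_sub_distrib, ← Finset.sum_add_distrib, Finset.sum_mul, ← Finset.sum_add_distrib]
    apply Finset.sum_congr rfl
    intro b _
    conv_lhs => rw [← Complex.re_add_im (u a), ← Complex.re_add_im (v b)]
    push_cast
    linear_combination (-((u a).im : ℂ) * (v b).im * ((ic P (a * (r * b)) : ℂ) - (l : ℂ))) * (-Complex.I_mul_I)
  rw [e]
  have hc : ∀ x : ℝ, |x| ≤ ε / 4 * (Q * N) → ‖(x : ℂ)‖ ≤ ε / 4 * (Q * N) := by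
    intro x hx
    rw [Complex.norm_real, Real.norm_eq_abs]
    exact hx
  have n1 := hc _ h1
  have n2 := hc _ h2
  have n3 := hc _ h3
  have n4 := hc _ h4
  calc _ ≤ ‖((F (fun a => (u a).re) (fun b => (v b).re) : ℝ) : ℂ)‖ +
        ‖((F (fun a => (u a).im) (fun b => (v b).im) : ℝ) : ℂ)‖ +
        (‖((F (fun a => (u a).re) (fun b => (v b).im) : ℝ) : ℂ)‖ +
        ‖((F (fun a => (u a).im) (fun b => (v b).re) : ℝ) : ℂ)‖) * ‖Complex.I‖ := by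
        refine (norm_add_le _ _).trans (add_le_add (norm_sub_le _ _) ?_)
        rw [norm_mul]
        exact mul_le_mul_of_nonneg_right (norm_add_le _ _) (norm_nonneg _)
    _ ≤ ε * (Q * N) := by
        rw [Complex.norm_I]
        linarith

/-- the form with the product of the sums -/
theorem PLC_sums {P : ℕ → Prop} {l : ℝ} (h : PL P l) : ∀ ε : ℝ, 0 < ε → ∃ ϑ : ℝ, 0 < ϑ ∧ ∀ α : ℝ, 0 < α →
    ∃ N0 : ℕ, ∀ N M r : ℕ, N0 ≤ N → (N : ℝ) ^ α ≤ M → (M : ℝ) ≤ (N : ℝ) ^ ϑ → r % 2 = 1 →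
    (r : ℝ) ≤ (N : ℝ) ^ ϑ → ∀ u v : ℕ → ℂ, (∀ a, ‖u a‖ ≤ 1) → (∀ b, ‖v b‖ ≤ 1) →
    ‖∑ p ∈ (Ioc M (2 * M) ×ˢ Icc 1 N).filter (fun p => P (r * p.1 * p.2)), u p.1 * v p.2 -
      l * ((∑ a ∈ Ioc M (2 * M), u a) * ∑ b ∈ Icc 1 N, v b)‖ ≤ ε * (M * N) := by
  intro ε hε
  obtain ⟨ϑ, h0, H⟩ := PL_complex h ε hε
  refine ⟨ϑ, h0, fun α hα => ?_⟩
  obtain ⟨N0, H⟩ := H α hα
  refine ⟨N0, fun N Q r hN hQ1 hQ2 hr hr2 u v hu hv => ?_⟩
  refine le_trans (le_of_eq ?_) (H N hN Q hQ1 hQ2 r hr hr2 u v hu hv)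
  congr 1
  rw [sum_filter, sum_product, sum_mul_sum, mul_sum, ← sum_sub_distrib]
  apply sum_congr rfl
  intro a _
  rw [mul_sum, ← sum_sub_distrib]
  apply sum_congr rfl
  intro b _
  have e : r * a * b = a * (r * b) := by ring
  beta_reduce
  simp only
  rw [e]
  unfold ic
  split_ifs <;> push_cast <;> ring

/-- sets -/
theorem PL_sets {P : ℕ → Prop} {l : ℝ} (h : PL P l) : ∀ ε : ℝ, 0 < ε → ∃ ϑ : ℝ, 0 < ϑ ∧ ∀ α : ℝ, 0 < α →
    ∃ N0 : ℕ, ∀ N M r : ℕ, N0 ≤ N → (N : ℝ) ^ α ≤ M → (M : ℝ) ≤ (N : ℝ) ^ ϑ → r % 2 = 1 →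
    (r : ℝ) ≤ (N : ℝ) ^ ϑ → ∀ A B : Finset ℕ, A ⊆ Ioc M (2 * M) → B ⊆ Icc 1 N →
    |(((A ×ˢ B).filter (fun p => P (r * p.1 * p.2))).card : ℝ) - l * (A.card * B.card)| ≤ ε * (M * N) := by
  intro ε hε
  obtain ⟨ϑ, h0, H⟩ := h ε hε
  refine ⟨ϑ, h0, fun α hα => ?_⟩
  obtain ⟨N0, H⟩ := H α hα
  refine ⟨N0, fun N Q r hN hQ1 hQ2 hr hr2 A B hA hB => ?_⟩
  have h1 := H N hN Q hQ1 hQ2 r hr hr2 (fun a => if a ∈ A then 1 else 0) (fun b => if b ∈ B then 1 else 0)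
    (fun a => by beta_reduce; split_ifs <;> simp) (fun a => by beta_reduce; split_ifs <;> simp)
  refine le_trans (le_of_eq ?_) h1
  congr 1
  unfold SQ
  have e1 : ((A.card : ℝ) * B.card) = ∑ p ∈ A ×ˢ B, (1 : ℝ) := by
    rw [sum_const, card_product, nsmul_eq_mul]; push_cast; ring
  rw [e1, card_filter, mul_sum]
  push_cast
  rw [← sum_sub_distrib, sum_product]
  rw [← sum_subset hA]
  · apply sum_congr rfl
    intro a ha
    rw [← sum_subset hB]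
    · apply sum_congr rfl
      intro b hb
      have e : r * a * b = a * (r * b) := by ring
      rw [if_pos ha, if_pos hb]
      simp only
      rw [e]
      unfold ic
      ring
    · intro b _ hb
      rw [if_neg hb]; ring
  · intro a _ ha
    apply sum_eq_zero
    intro b _
    rw [if_neg ha]; ring

/-- the product law on `(P, 2 P] × (Q, 2 Q]` -/
theorem PL_pair {E : ℕ → Prop} {l : ℝ} (h : PL E l) : ∀ ε : ℝ, 0 < ε → ∃ ϑ : ℝ, 0 < ϑ ∧ ∀ α : ℝ, 0 < α → ∃ N0 : ℕ,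
    ∀ P Q : ℕ, N0 ≤ Q → (Q : ℝ) ^ α ≤ P → (P : ℝ) ≤ (Q : ℝ) ^ ϑ →
    ∀ u v : ℕ → ℝ, (∀ a, |u a| ≤ 1) → (∀ b, |v b| ≤ 1) →
    |∑ a ∈ Ioc P (2 * P), ∑ b ∈ Ioc Q (2 * Q), u a * v b * (ic E (a * b) - l)| ≤ ε * (P * Q) := by
  intro ε hε
  obtain ⟨ϑ, h0, H⟩ := h (ε / 2) (by positivity)
  refine ⟨ϑ, h0, fun α hα => ?_⟩
  obtain ⟨N0, H⟩ := H (α / 2) (by positivity)
  refine ⟨max N0 2, fun P Q hQ hP1 hP2 u v hu hv => ?_⟩
  have hQ0 : N0 ≤ Q := (le_max_left _ _).trans hQ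
  have hQ2' : 2 ≤ Q := (le_max_right _ _).trans hQ
  have hQ2 : (2 : ℝ) ≤ Q := by exact_mod_cast hQ2'
  have hQp : (0 : ℝ) < Q := by linarith
  have e2 : ((2 * Q : ℕ) : ℝ) = 2 * Q := by push_cast; rfl
  set v' : ℕ → ℝ := fun b => if b ∈ Ioc Q (2 * Q) then v b else 0 with hv'
  have h2 := H (2 * Q) (by omega) P (by
      rw [e2]
      have h3 : (2 : ℝ) * Q ≤ (Q : ℝ) ^ (2 : ℝ) := by
        rw [show (2 : ℝ) = ((2 : ℕ) : ℝ) by norm_num, Real.rpow_natCast]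
        push_cast; nlinarith
      calc ((2 : ℝ) * Q) ^ (α / 2) ≤ ((Q : ℝ) ^ (2 : ℝ)) ^ (α / 2) :=
            Real.rpow_le_rpow (by positivity) h3 (by positivity)
        _ = (Q : ℝ) ^ α := by rw [← Real.rpow_mul hQp.le]; congr 1; ring
        _ ≤ P := hP1) (by
      rw [e2]
      exact hP2.trans (Real.rpow_le_rpow hQp.le (by linarith) h0.le)) 1 (by norm_num) (by
      rw [e2, Nat.cast_one]
      exact Real.one_le_rpow (by linarith) h0.le) u v' hu (fun b => by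
      simp only [hv']
      split_ifs
      · exact hv b
      · simp)
  have e : ∑ a ∈ Ioc P (2 * P), ∑ b ∈ Ioc Q (2 * Q), u a * v b * (ic E (a * b) - l) =
      SQ P (2 * Q) 1 u v' (fun n => ic E n - l) := by
    unfold SQ
    apply sum_congr rfl
    intro a _
    have hsub : Ioc Q (2 * Q) ⊆ Icc 1 (2 * Q) := by
      intro b hb
      rw [mem_Ioc] at hb
      rw [mem_Icc]; omega
    rw [← sum_subset hsub]
    · apply sum_congr rfl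
      intro b hb
      simp only [hv']
      rw [if_pos hb, one_mul]
    · intro b _ hb
      simp only [hv']
      rw [if_neg hb]; ring
  rw [e]
  refine h2.trans (le_of_eq ?_)
  rw [e2]; ring

/-- the density in `(P, 2 P]` -/
theorem Dn_dyadic {E : ℕ → Prop} {δ : ℝ} (h : Dn E δ) {ε : ℝ} (hε : 0 < ε) : ∃ N0 : ℕ, ∀ P : ℕ, N0 ≤ P →
    |∑ a ∈ Ioc P (2 * P), ic E a - δ * P| ≤ ε * P := by
  have h' : Tendsto (fun N : ℕ => (({n : ℕ | 1 ≤ n ∧ n ≤ N ∧ E n}.ncard : ℝ)) / N) atTop (𝓝 δ) := h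
  obtain ⟨N1, hN1⟩ := Metric.tendsto_atTop.1 h' (ε / 3) (by positivity)
  have hc : ∀ N, ({n : ℕ | 1 ≤ n ∧ n ≤ N ∧ E n}.ncard : ℝ) = ∑ a ∈ Ioc 0 N, ic E a := by
    intro N
    have e1 : {n : ℕ | 1 ≤ n ∧ n ≤ N ∧ E n} = ((Ioc 0 N).filter E : Set ℕ) := by
      ext n
      simp only [Set.mem_ofPred_eq, coe_filter, mem_Ioc]
      constructor
      · rintro ⟨a, b, c⟩; exact ⟨⟨by omega, b⟩, c⟩
      · rintro ⟨⟨a, b⟩, c⟩; exact ⟨by omega, b, c⟩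
    rw [e1, Set.ncard_coe_finset, card_filter]
    push_cast
    rfl
  have hb : ∀ N : ℕ, N1 ≤ N → 1 ≤ N → |∑ a ∈ Ioc 0 N, ic E a - δ * N| ≤ ε / 3 * N := by
    intro N hN hN0
    have h1 := hN1 N hN
    rw [Real.dist_eq, hc] at h1
    have hNr : (0 : ℝ) < N := by exact_mod_cast hN0
    have e : ∑ a ∈ Ioc 0 N, ic E a - δ * N = ((∑ a ∈ Ioc 0 N, ic E a) / N - δ) * N := by field_simp
    rw [e, abs_mul, abs_of_pos hNr]
    exact mul_le_mul_of_nonneg_right h1.le hNr.le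
  refine ⟨max N1 1, fun P hP => ?_⟩
  have hP1 : N1 ≤ P := (le_max_left _ _).trans hP
  have hP2 : 1 ≤ P := (le_max_right _ _).trans hP
  have h1 := hb P hP1 hP2
  have h2 := hb (2 * P) (by omega) (by omega)
  have h3 : ∑ a ∈ Ioc P (2 * P), ic E a = ∑ a ∈ Ioc 0 (2 * P), ic E a - ∑ a ∈ Ioc 0 P, ic E a := by
    rw [← sum_Ioc_consecutive _ (Nat.zero_le P) (show P ≤ 2 * P by omega)]
    ring
  rw [h3]
  push_cast at h2
  rw [abs_le] at h1 h2 ⊢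
  constructor <;> linarith [h1.1, h1.2, h2.1, h2.2]

end Pool.Agent.X62.BF
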