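import Pool.Agent.X62.BF.SumSame
import Pool.Agent.Results.MP_a1568a_nt.NormalOrder

/-! Total stopping times of sums, products: auxiliary results. -/

set_option autoImplicit false

namespace Pool.Agent.X62.BF

open Finset Filter Topology
open Pool.Agent.H499R2.CO (Tz)
open Pool.Agent.H499R2.ND (Dn Tn cnt)
open Pool.Agent.H499R2.HL (H)
open scoped Classical

/-- merging above `2` -/
theorem H_same {n m t : ℕ} (h1 : Tn^[t] n = Tn^[t] m) (h2 : 2 < Tn^[t] n) (s : ℕ) (h : H s n) : H s m := by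
  have hno : ∀ x : ℕ, 2 < Tn^[t] x → ∀ i, i ≤ t → Tn^[i] x ≠ 1 := by
    intro x hx i hi hi1
    obtain ⟨l, rfl⟩ := Nat.exists_eq_add_of_le hi
    rw [show i + l = l + i by ring, Function.iterate_add_apply, hi1] at hx
    rcases Pool.Agent.Y964.LW.Tn_one_iter l with h5 | h5 <;> omega
  obtain ⟨h3, h4⟩ := h
  have hts : t < s := by
    by_contra hcon
    push Not at hcon
    exact hno n h2 s hcon h3
  obtain ⟨i, rfl⟩ := Nat.exists_eq_add_of_le hts.le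
  refine ⟨?_, fun l hl => ?_⟩
  · rw [show t + i = i + t by ring, Function.iterate_add_apply] at h3 ⊢
    rw [← h1]; exact h3
  · rcases Nat.lt_or_ge l t with h5 | h5
    · exact hno m (by rw [← h1]; exact h2) l h5.le
    · obtain ⟨i', rfl⟩ := Nat.exists_eq_add_of_le h5
      have h6 := h4 (t + i') hl
      rw [show t + i' = i' + t by ring, Function.iterate_add_apply] at h6 ⊢
      rw [← h1]; exact h6

/-- the sums have the total stopping times of their largest summands -/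
def Fol {k : ℕ} (x : Fin k → ℕ) : Prop := ∀ (J : Finset (Fin k)) (hJ : J.Nonempty) (t : ℕ),
  H t (∑ i ∈ J, x i) ↔ H t (x (J.max' hJ))

theorem sums_fol (k : ℕ) {ε : ℝ} (hε : 0 < ε) :
    ∃ ϑ : ℝ, 0 < ϑ ∧ ∃ N0 : ℕ, ∀ P : Fin k → ℕ, (∀ i, N0 ≤ P i) →
    (∀ i j, i < j → (P i : ℝ) ≤ (P j : ℝ) ^ ϑ) →
    (#{x ∈ Fintype.piFinset (fun i => Ioc (P i) (2 * P i)) | ¬ Fol x} : ℝ) ≤ ε * ∏ i, (P i : ℝ) := by
  obtain ⟨ϑ, h0, N0, H0⟩ := sums_same (ε := min ε 1 / 2 ^ k) (by have := lt_min hε one_pos; positivity) (by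
    rw [div_le_one (by positivity)]
    have : (1 : ℝ) ≤ 2 ^ k := one_le_pow₀ (by norm_num)
    exact (min_le_right _ _).trans this) k
  refine ⟨ϑ, h0, N0, fun P hP hPP => ?_⟩
  have hPr : ∏ l, (#(Ioc (P l) (2 * P l)) : ℝ) = ∏ i, (P i : ℝ) := by
    apply prod_congr rfl
    intro i _
    rw [Nat.card_Ioc, show 2 * P i - P i = P i by omega]
  set Bad : Finset (Fin k) → Finset (Fin k → ℕ) := fun J => if hJ : J.Nonempty then
    {x ∈ Fintype.piFinset (fun i => Ioc (P i) (2 * P i)) | ¬ ∃ t : ℕ, (Tz 1)^[t] ((x (J.max' hJ) : ℕ) : ℤ) =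
      (Tz 1)^[t] (∑ i ∈ J, (x i : ℤ)) ∧ 2 < (Tz 1)^[t] ((x (J.max' hJ) : ℕ) : ℤ)} else ∅ with hBad
  have hPr0 : 0 ≤ ∏ i, (P i : ℝ) := prod_nonneg fun i _ => Nat.cast_nonneg _
  have hBadc : ∀ J, (#(Bad J) : ℝ) ≤ min ε 1 / 2 ^ k * ∏ i, (P i : ℝ) := by
    intro J
    simp only [hBad]
    split_ifs with hJ
    · have := H0 P hP hPP J hJ
      rw [hPr] at this
      exact this
    · have := lt_min hε one_pos
      simp only [card_empty, Nat.cast_zero]; positivity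
  have hsd : {x ∈ Fintype.piFinset (fun i => Ioc (P i) (2 * P i)) | ¬ Fol x} ⊆ univ.biUnion Bad := by
    intro x hx
    rw [mem_filter] at hx
    obtain ⟨hx0, hxF⟩ := hx
    rw [mem_biUnion]
    by_contra hc
    push Not at hc
    apply hxF
    intro J hJ t
    have h1 := hc J (mem_univ _)
    simp only [hBad] at h1
    rw [dif_pos hJ, mem_filter, not_and, not_not] at h1
    obtain ⟨m, hm1, hm2⟩ := h1 hx0
    have e1 : (∑ i ∈ J, (x i : ℤ)) = ((∑ i ∈ J, x i : ℕ) : ℤ) := by push_cast; rfl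
    rw [e1, Pool.Agent.Y964.LW.Tz_nat, Pool.Agent.Y964.LW.Tz_nat] at hm1
    rw [Pool.Agent.Y964.LW.Tz_nat] at hm2
    have hm1' : Tn^[m] (x (J.max' hJ)) = Tn^[m] (∑ i ∈ J, x i) := by exact_mod_cast hm1
    have hm2' : 2 < Tn^[m] (x (J.max' hJ)) := by exact_mod_cast hm2
    exact ⟨H_same hm1'.symm (by rw [← hm1']; exact hm2') t, H_same hm1' hm2' t⟩
  have h2 : (#{x ∈ Fintype.piFinset (fun i => Ioc (P i) (2 * P i)) | ¬ Fol x} : ℝ) ≤
      ∑ J : Finset (Fin k), (#(Bad J) : ℝ) := by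
    have h3 := (card_le_card hsd).trans card_biUnion_le
    exact_mod_cast h3
  refine h2.trans ((sum_le_sum fun J _ => hBadc J).trans ?_)
  rw [sum_const, card_univ, Fintype.card_finset, Fintype.card_fin, nsmul_eq_mul]
  push_cast
  have h4 : (2 : ℝ) ^ k * (min ε 1 / 2 ^ k * ∏ i, (P i : ℝ)) = min ε 1 * ∏ i, (P i : ℝ) := by field_simp
  rw [h4]
  exact mul_le_mul_of_nonneg_right (min_le_left _ _) hPr0

theorem Dn_squeeze {P Q R : ℕ → Prop} {δ : ℝ} (hP : Dn P δ) (hR : Dn R δ) (h1 : ∀ n, P n → Q n)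
    (h2 : ∀ n, Q n → R n) : Dn Q δ := by
  have hm : ∀ {A B : ℕ → Prop}, (∀ n, A n → B n) → ∀ N : ℕ, cnt A N / N ≤ cnt B N / N := by
    intro A B h N
    apply div_le_div_of_nonneg_right _ (Nat.cast_nonneg _)
    have h5 : {n : ℕ | 1 ≤ n ∧ n ≤ N ∧ A n}.ncard ≤ {n : ℕ | 1 ≤ n ∧ n ≤ N ∧ B n}.ncard := by
      apply Set.ncard_le_ncard _ ((Set.finite_Icc 1 N).subset (fun n hn => ⟨hn.1, hn.2.1⟩))
      rintro n ⟨a, b, c⟩
      exact ⟨a, b, h n c⟩
    unfold cnt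
    exact_mod_cast h5
  exact tendsto_of_tendsto_of_tendsto_of_le_of_le hP hR (hm h1) (hm h2)

/-- the normal order -/
theorem Dn_typical {δ : ℝ} (h3 : Dn (fun n => ∃ k : ℕ, Tn^[k] n = 1) δ) {η : ℝ} (hη : 0 < η) :
    Dn (fun n => ∃ t : ℕ, H t n ∧ |(t : ℝ) - 2 / Real.log (4 / 3) * Real.log n| ≤ η * Real.log n) δ := by
  obtain ⟨δ', _, _, _, h4, h5, _, _⟩ := Pool.Agent.Results.MP_a1568a_nt.NormalOrder.result
  have e : δ' = δ := tendsto_nhds_unique h4 h3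
  rw [e] at h5
  refine Dn_squeeze (h5 η hη) h3 ?_ ?_
  · rintro n ⟨t, h6, h7, _⟩
    exact ⟨t, h6, h7⟩
  · rintro n ⟨t, h6, _⟩
    exact ⟨t, h6.1⟩

end Pool.Agent.X62.BF
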