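import Pool.Agent.X62.BF.Bil

/-! The bilinear estimate for all integers, for functions constant on coalescing trajectories above a
fixed height: conclusion. -/

set_option autoImplicit false

namespace Pool.Agent.X62.BF

open Finset Pool.Agent.H320R2.PD Pool.Agent.H499R2.ND Pool.Agent.H499R2.CO Pool.Agent.H376R2.MR
  Pool.Agent.W41.FU Pool.Agent.W41 Pool.Agent.W41.MU Pool.Agent.TH926.BL Pool.Agent.X62.BE
open Pool.Agent.Y964.LW (SameR sameR_two)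
open scoped Classical

/-- the number of multiples -/
theorem mult_card (P D : ℕ) (hD : 1 ≤ D) : (#{a ∈ Ioc P (2 * P) | D ∣ a} : ℝ) ≤ P / D + 1 := by
  have h := window_mult D (P + 1) P hD {a ∈ Ioc P (2 * P) | D ∣ a} (fun m hm => (mem_filter.1 hm).2)
  refine le_trans (le_of_eq ?_) h
  congr 2
  ext m
  simp only [mem_filter, mem_Ioc]
  constructor
  · rintro ⟨⟨h1, h2⟩, h3⟩
    exact ⟨⟨⟨h1, h2⟩, h3⟩, by omega, by omega⟩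
  · rintro ⟨h1, _⟩
    exact h1

/-- MEAN SQUARES of the sums over `(P, 2 P]`. -/
theorem bil2R (R : ℕ) {s : ℤ} (hs : s = 1 ∨ s = -1) {ε : ℝ} (hε : 0 < ε) (hε1 : ε ≤ 1) :
    ∃ ϑ : ℝ, 0 < ϑ ∧ ϑ ≤ 1 / 64 ∧ ∃ E0 : ℕ, ∀ α : ℝ, 0 < α → ∃ N0 : ℕ, 2 ≤ N0 ∧ ∃ μ : ℝ, 0 < μ ∧
    ∀ N : ℕ, N0 ≤ N → ∀ f ∈ SameR R s,
    ∀ P : ℕ, (N : ℝ) ^ α ≤ P → (P : ℝ) ≤ (N : ℝ) ^ ϑ →
    ∀ r : ℕ, r % 2 = 1 → (r : ℝ) ≤ (N : ℝ) ^ ϑ →
    (∀ e : ℕ, e ≤ E0 → ∀ n : ℕ, (n : ℝ) ≤ 32 * (P * N * r) →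
      |∑ m ∈ Icc 1 n, f ((2 ^ e * m : ℕ) : ℤ)| ≤ μ * (P * N * r)) →
    ∀ w : ℕ → ℝ, (∀ a, |w a| ≤ 1) →
    ∑ b ∈ Icc 1 N, (∑ a ∈ Ioc P (2 * P), w a * f ((a * (r * b) : ℕ) : ℤ)) ^ 2 ≤ ε * (P ^ 2 * N) := by
  obtain ⟨E0, hE0⟩ : ∃ E0 : ℕ, 8 / ε ≤ (2 : ℝ) ^ (E0 + 1) := by
    obtain ⟨n, hn⟩ := pow_unbounded_of_one_lt (8 / ε) (show (1 : ℝ) < 2 by norm_num)
    exact ⟨n, hn.le.trans (pow_le_pow_right₀ (by norm_num) (by omega))⟩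
  obtain ⟨ϑ, h0, h1, H⟩ := bil2A R hs (show 0 < ε / 4 by positivity) (by linarith) E0
  refine ⟨ϑ, h0, h1, E0, fun α hα => ?_⟩
  obtain ⟨N1, hN12, μ, hμ, H⟩ := H α hα
  have ev : ∀ᶠ x : ℝ in Filter.atTop, 8 / ε ≤ x ^ α := (tendsto_rpow_atTop hα).eventually_ge_atTop _
  obtain ⟨N2, hN2⟩ := Filter.eventually_atTop.1 (tendsto_natCast_atTop_atTop (R := ℝ) |>.eventually ev)
  refine ⟨max N1 N2, le_trans hN12 (le_max_left _ _), μ, hμ, fun N hN f hf P hP1 hP2 r hro hr2 hmean w hw => ?_⟩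
  have hN' := hN2 N (le_trans (le_max_right _ _) hN)
  have hP8 : 8 / ε ≤ P := hN'.trans hP1
  have hPp : (0 : ℝ) < P := lt_of_lt_of_le (by positivity) hP8
  set D := 2 ^ (E0 + 1) with hD
  have hDr : 8 / ε ≤ ((D : ℕ) : ℝ) := by rw [hD]; push_cast; exact hE0
  have hD1 : 1 ≤ D := Nat.one_le_two_pow
  set w1 : ℕ → ℝ := fun a => if D ∣ a then 0 else w a with hw1
  have h2 := H N (le_trans (le_max_left _ _) hN) f hf P hP1 hP2 r hro hr2 hmean w1 (fun a => by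
    simp only [hw1]; split_ifs
    · simp
    · exact hw a) (fun a ha => by simp only [hw1]; rw [if_pos ha])
  have hcard := mult_card P D hD1
  have hcard2 : (#{a ∈ Ioc P (2 * P) | D ∣ a} : ℝ) ≤ ε / 4 * P := by
    have h3 : (P : ℝ) / D ≤ ε / 8 * P := by
      rw [div_le_iff₀ (lt_of_lt_of_le (by positivity) hDr)]
      rw [div_le_iff₀ hε] at hDr
      nlinarith
    have h4 : (1 : ℝ) ≤ ε / 8 * P := by
      rw [div_le_iff₀ hε] at hP8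
      linarith
    linarith
  have key : ∀ b, (∑ a ∈ Ioc P (2 * P), w a * f ((a * (r * b) : ℕ) : ℤ)) ^ 2 ≤
      2 * (∑ a ∈ Ioc P (2 * P), w1 a * f ((a * (r * b) : ℕ) : ℤ)) ^ 2 + ε / 8 * P ^ 2 := by
    intro b
    have e : ∑ a ∈ Ioc P (2 * P), w a * f ((a * (r * b) : ℕ) : ℤ) =
        ∑ a ∈ Ioc P (2 * P), w1 a * f ((a * (r * b) : ℕ) : ℤ) +
        ∑ a ∈ (Ioc P (2 * P)).filter (fun a => D ∣ a), w a * f ((a * (r * b) : ℕ) : ℤ) := by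
      rw [sum_filter, ← sum_add_distrib]
      apply sum_congr rfl
      intro a _
      simp only [hw1]
      split_ifs <;> ring
    have h3 : |∑ a ∈ (Ioc P (2 * P)).filter (fun a => D ∣ a), w a * f ((a * (r * b) : ℕ) : ℤ)| ≤ ε / 4 * P := by
      refine (abs_sum_le_sum_abs _ _).trans (le_trans ?_ hcard2)
      rw [card_eq_sum_ones]
      push_cast
      apply sum_le_sum
      intro a _
      rw [abs_mul]
      exact mul_le_one₀ (hw a) (abs_nonneg _) (hf.1 _)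
    have h4 : (∑ a ∈ (Ioc P (2 * P)).filter (fun a => D ∣ a), w a * f ((a * (r * b) : ℕ) : ℤ)) ^ 2 ≤ (ε / 4 * P) ^ 2 := by
      rw [← sq_abs]
      exact pow_le_pow_left₀ (abs_nonneg _) h3 2
    have h5 : (ε / 4 * P) ^ 2 ≤ ε / 16 * (P : ℝ) ^ 2 := by
      have : (ε / 4 * (P : ℝ)) ^ 2 = ε ^ 2 / 16 * P ^ 2 := by ring
      rw [this]
      apply mul_le_mul_of_nonneg_right _ (by positivity)
      nlinarith
    rw [e]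
    nlinarith [sq_nonneg (∑ a ∈ Ioc P (2 * P), w1 a * f ((a * (r * b) : ℕ) : ℤ) -
      ∑ a ∈ (Ioc P (2 * P)).filter (fun a => D ∣ a), w a * f ((a * (r * b) : ℕ) : ℤ))]
  refine (sum_le_sum fun b _ => key b).trans ?_
  rw [sum_add_distrib, ← mul_sum, sum_const, Nat.card_Icc, Nat.add_sub_cancel, nsmul_eq_mul]
  have hNP : 0 ≤ ε * ((P : ℝ) ^ 2 * N) := by positivity
  nlinarith

/-- THE BILINEAR ESTIMATE. -/
theorem bilR (R : ℕ) {s : ℤ} (hs : s = 1 ∨ s = -1) {ε : ℝ} (hε : 0 < ε) (hε1 : ε ≤ 1) :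
    ∃ ϑ : ℝ, 0 < ϑ ∧ ϑ ≤ 1 / 64 ∧ ∃ E0 : ℕ, ∀ α : ℝ, 0 < α → ∃ N0 : ℕ, 2 ≤ N0 ∧ ∃ μ : ℝ, 0 < μ ∧
    ∀ N : ℕ, N0 ≤ N → ∀ f ∈ SameR R s,
    ∀ P : ℕ, (N : ℝ) ^ α ≤ P → (P : ℝ) ≤ (N : ℝ) ^ ϑ →
    ∀ r : ℕ, r % 2 = 1 → (r : ℝ) ≤ (N : ℝ) ^ ϑ →
    (∀ e : ℕ, e ≤ E0 → ∀ n : ℕ, (n : ℝ) ≤ 32 * (P * N * r) →
      |∑ m ∈ Icc 1 n, f ((2 ^ e * m : ℕ) : ℤ)| ≤ μ * (P * N * r)) →
    ∀ u v : ℕ → ℝ, (∀ a, |u a| ≤ 1) → (∀ b, |v b| ≤ 1) →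
    |∑ a ∈ Ioc P (2 * P), ∑ b ∈ Icc 1 N, u a * v b * f ((a * (r * b) : ℕ) : ℤ)| ≤ ε * (P * N) := by
  obtain ⟨ϑ, h0, h1, E0, H⟩ := bil2R R hs (show 0 < ε ^ 2 by positivity) (pow_le_one₀ hε.le hε1)
  refine ⟨ϑ, h0, h1, E0, fun α hα => ?_⟩
  obtain ⟨N0, hN0, μ, hμ, H⟩ := H α hα
  refine ⟨N0, hN0, μ, hμ, fun N hN f hf P hP1 hP2 r hr hr2 hmean u v hu hv => ?_⟩
  have h2 := H N hN f hf P hP1 hP2 r hr hr2 hmean u hu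
  rw [sum_comm]
  have e : ∑ b ∈ Icc 1 N, ∑ a ∈ Ioc P (2 * P), u a * v b * f ((a * (r * b) : ℕ) : ℤ) =
      ∑ b ∈ Icc 1 N, v b * ∑ a ∈ Ioc P (2 * P), u a * f ((a * (r * b) : ℕ) : ℤ) := by
    apply sum_congr rfl
    intro b _
    rw [mul_sum]
    apply sum_congr rfl
    intro a _
    ring
  rw [e]
  have h3 : |∑ b ∈ Icc 1 N, v b * ∑ a ∈ Ioc P (2 * P), u a * f ((a * (r * b) : ℕ) : ℤ)| ≤
      ∑ b ∈ Icc 1 N, |∑ a ∈ Ioc P (2 * P), u a * f ((a * (r * b) : ℕ) : ℤ)| := by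
    refine (abs_sum_le_sum_abs _ _).trans (sum_le_sum fun b _ => ?_)
    rw [abs_mul]
    exact mul_le_of_le_one_left (abs_nonneg _) (hv b)
  refine h3.trans ?_
  apply le_of_sq_le_sq _ (by positivity)
  refine (sq_sum_le_card_mul_sum_sq).trans ?_
  rw [Nat.card_Icc, Nat.add_sub_cancel]
  simp only [sq_abs]
  calc (N : ℝ) * _ ≤ N * (ε ^ 2 * (P ^ 2 * N)) := mul_le_mul_of_nonneg_left h2 (Nat.cast_nonneg _)
    _ = (ε * (P * N)) ^ 2 := by ring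

end Pool.Agent.X62.BF
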