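import Pool.Agent.X62.BF.Bil2
import Pool.Agent.Y964.LW.C2

/-! From laws in natural density to laws along the products of two integers, with arbitrary weights. -/

set_option autoImplicit false

namespace Pool.Agent.X62.BF

open Finset Filter Topology Pool.Agent.H320R2.PD Pool.Agent.H499R2.ND Pool.Agent.H499R2.CO
  Pool.Agent.W41.FU Pool.Agent.W41 Pool.Agent.X62.BE
open Pool.Agent.Y964.LW (SameR sameR_two Fam thr bf bf_same bf_sum fix_law)
open scoped Classical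

/-- the indicator function of an event -/
noncomputable def ic (P : ℕ → Prop) (n : ℕ) : ℝ := if P n then 1 else 0

theorem ic_nonneg (P : ℕ → Prop) (n : ℕ) : 0 ≤ ic P n := by unfold ic; split_ifs <;> norm_num

theorem ic_le_one (P : ℕ → Prop) (n : ℕ) : ic P n ≤ 1 := by unfold ic; split_ifs <;> norm_num

/-- the sum over the products -/
noncomputable def SQ (Q N r : ℕ) (u v : ℕ → ℝ) (f : ℕ → ℝ) : ℝ :=
  ∑ a ∈ Ioc Q (2 * Q), ∑ b ∈ Icc 1 N, u a * v b * f (a * (r * b))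

theorem SQ_add (Q N r : ℕ) (u v f g : ℕ → ℝ) : SQ Q N r u v (fun n => f n + g n) = SQ Q N r u v f + SQ Q N r u v g := by
  unfold SQ
  rw [← sum_add_distrib]
  apply sum_congr rfl
  intro a _
  rw [← sum_add_distrib]
  apply sum_congr rfl
  intro b _
  ring

theorem SQ_sub (Q N r : ℕ) (u v f g : ℕ → ℝ) : SQ Q N r u v (fun n => f n - g n) = SQ Q N r u v f - SQ Q N r u v g := by
  unfold SQ
  rw [← sum_sub_distrib]
  apply sum_congr rfl
  intro a _
  rw [← sum_sub_distrib]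
  apply sum_congr rfl
  intro b _
  ring

/-- the sum with the weight one -/
noncomputable def S1 (Q N r : ℕ) (f : ℕ → ℝ) : ℝ := SQ Q N r (fun _ => 1) (fun _ => 1) f

theorem S1_eq (Q N r : ℕ) (f : ℕ → ℝ) : S1 Q N r f = ∑ a ∈ Ioc Q (2 * Q), ∑ b ∈ Icc 1 N, f (a * (r * b)) := by
  unfold S1 SQ
  apply sum_congr rfl
  intro a _
  apply sum_congr rfl
  intro b _
  ring

theorem SQ_abs {Q N r : ℕ} {u v : ℕ → ℝ} (hu : ∀ a, |u a| ≤ 1) (hv : ∀ b, |v b| ≤ 1) {f g : ℕ → ℝ}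
    (h : ∀ a b : ℕ, Q < a → a ≤ 2 * Q → 1 ≤ b → b ≤ N → |f (a * (r * b))| ≤ g (a * (r * b))) :
    |SQ Q N r u v f| ≤ S1 Q N r g := by
  rw [S1_eq]
  unfold SQ
  refine (abs_sum_le_sum_abs _ _).trans (sum_le_sum fun a ha => ?_)
  refine (abs_sum_le_sum_abs _ _).trans (sum_le_sum fun b hb => ?_)
  rw [mem_Ioc] at ha
  rw [mem_Icc] at hb
  rw [abs_mul, abs_mul]
  have h1 := h a b ha.1 ha.2 hb.1 hb.2
  calc |u a| * |v b| * |f (a * (r * b))| ≤ 1 * |f (a * (r * b))| := by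
        apply mul_le_mul_of_nonneg_right _ (abs_nonneg _)
        exact mul_le_one₀ (hu a) (abs_nonneg _) (hv b)
    _ ≤ _ := by rw [one_mul]; exact h1

theorem S1_const (Q N r : ℕ) (c : ℝ) : S1 Q N r (fun _ => c) = c * (Q * N) := by
  rw [S1_eq, sum_const, sum_const, Nat.card_Ioc, Nat.card_Icc, nsmul_eq_mul, nsmul_eq_mul,
    show 2 * Q - Q = Q by omega, Nat.add_sub_cancel]
  ring

theorem S1_mono {Q N r : ℕ} {f g : ℕ → ℝ}
    (h : ∀ a b : ℕ, Q < a → a ≤ 2 * Q → 1 ≤ b → b ≤ N → f (a * (r * b)) ≤ g (a * (r * b))) :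
    S1 Q N r f ≤ S1 Q N r g := by
  rw [S1_eq, S1_eq]
  refine sum_le_sum fun a ha => sum_le_sum fun b hb => ?_
  rw [mem_Ioc] at ha
  rw [mem_Icc] at hb
  exact h a b ha.1 ha.2 hb.1 hb.2

/-- the product law: `P` holds with frequency `l` along the products with arbitrary bounded weights -/
def PL (P : ℕ → Prop) (l : ℝ) : Prop := ∀ ε : ℝ, 0 < ε → ∃ ϑ : ℝ, 0 < ϑ ∧ ∀ α : ℝ, 0 < α → ∃ N0 : ℕ,
  ∀ N : ℕ, N0 ≤ N → ∀ Q : ℕ, (N : ℝ) ^ α ≤ Q → (Q : ℝ) ≤ (N : ℝ) ^ ϑ → ∀ r : ℕ, r % 2 = 1 →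
  (r : ℝ) ≤ (N : ℝ) ^ ϑ → ∀ u v : ℕ → ℝ, (∀ a, |u a| ≤ 1) → (∀ b, |v b| ≤ 1) →
  |SQ Q N r u v (fun n => ic P n - l)| ≤ ε * (Q * N)

/-- THE PRODUCT LAW at fixed thresholds -/
theorem prod_fix {s : ℤ} (hs : s = 1 ∨ s = -1) {R : ℕ} {ι : Type} (A : Fam s R ι) (i : ι) (x : ℝ)
    {ε : ℝ} (hε : 0 < ε) (hε1 : ε ≤ 1) : ∃ ϑ : ℝ, 0 < ϑ ∧ ∀ α : ℝ, 0 < α → ∃ κ : ℝ, 0 < κ ∧ ∃ N0 : ℕ,
    ∀ N : ℕ, N0 ≤ N → ∀ Q : ℕ, (N : ℝ) ^ α ≤ Q → (Q : ℝ) ≤ (N : ℝ) ^ ϑ → ∀ r : ℕ, r % 2 = 1 →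
    (r : ℝ) ≤ (N : ℝ) ^ ϑ → ∀ τ : ℝ,
    |τ - thr A.α A.σ x (Real.log (Q * N * r : ℕ))| ≤ κ * Real.sqrt (Real.log (Q * N * r : ℕ)) →
    ∀ u v : ℕ → ℝ, (∀ a, |u a| ≤ 1) → (∀ b, |v b| ≤ 1) →
    |SQ Q N r u v (fun n => ic (A.E i τ) n - A.F i x)| ≤ ε * (Q * N) := by
  obtain ⟨ϑ, h0, -, E0, H⟩ := bilR R hs hε hε1
  refine ⟨ϑ, h0, fun α hα => ?_⟩
  obtain ⟨N0, hN0, μ, hμ0, H⟩ := H α hα
  have h1 : ∀ e : ℕ, ∃ κ : ℝ, 0 < κ ∧ ∀ᶠ N : ℕ in atTop, ∀ τ : ℝ,
      |τ - thr A.α A.σ x (Real.log N)| ≤ κ * Real.sqrt (Real.log N) → ∀ y : ℕ, y ≤ 32 * N →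
      |cnt (A.E (A.sh^[e] i) τ) y - A.F i x * y| ≤ μ * N := by
    intro e
    obtain ⟨κ, h2, h3⟩ := fix_law (P := A.E (A.sh^[e] i)) (A.mono _) A.hσ (A.cont _) (A.law _) x hμ0 32
    refine ⟨κ, h2, ?_⟩
    rw [A.F_iter] at h3
    exact h3
  choose κ hκ0 hκ using h1
  obtain ⟨κm, hκm0, hκm⟩ : ∃ κm : ℝ, 0 < κm ∧ ∀ e ≤ E0, κm ≤ κ e := by
    obtain ⟨e0, _, he0⟩ := exists_min_image (range (E0 + 1)) κ ⟨0, by simp⟩
    exact ⟨κ e0, hκ0 e0, fun e he => he0 e (mem_range.2 (by omega))⟩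
  have tl : Tendsto (fun N : ℕ => κm / 2 * Real.sqrt (Real.log N)) atTop atTop :=
    (Real.tendsto_sqrt_atTop.comp (Real.tendsto_log_atTop.comp tendsto_natCast_atTop_atTop)).const_mul_atTop
      (by positivity)
  have hall : ∀ᶠ N : ℕ in atTop, ∀ e ∈ range (E0 + 1), ∀ τ : ℝ,
      |τ - thr A.α A.σ x (Real.log N)| ≤ κ e * Real.sqrt (Real.log N) → ∀ y : ℕ, y ≤ 32 * N →
      |cnt (A.E (A.sh^[e] i) τ) y - A.F i x * y| ≤ μ * N :=
    (Finset.eventually_all _).2 fun e _ => hκ e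
  obtain ⟨N1, hN1⟩ := eventually_atTop.1 (hall.and (tl.eventually_ge_atTop (E0 * A.w)))
  refine ⟨κm / 2, by positivity, max N0 N1, fun N hN Q hQ1 hQ2 r hr hr2 τ hτ u v hu hv => ?_⟩
  have hN2 : 2 ≤ N := hN0.trans ((le_max_left _ _).trans hN)
  have hNp : (0 : ℝ) < N := by exact_mod_cast (by omega : 0 < N)
  have hQp : 0 < Q := by
    have : (0 : ℝ) < Q := lt_of_lt_of_le (Real.rpow_pos_of_pos hNp α) hQ1
    exact_mod_cast this
  have hXN : N ≤ Q * N * r := by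
    calc N = 1 * N * 1 := by ring
      _ ≤ Q * N * r := Nat.mul_le_mul (Nat.mul_le_mul_right _ hQp) (by omega)
  obtain ⟨g1, g2⟩ := hN1 (Q * N * r) (((le_max_right _ _).trans hN).trans hXN)
  obtain ⟨F0, F1⟩ := A.F01 i x
  have hsame : bf (A.E i τ) (A.F i x) ∈ SameR R s := bf_same hs F0 F1 (A.same i τ)
  have hr1 : 1 ≤ r := by omega
  have key := H N ((le_max_left _ _).trans hN) _ hsame Q hQ1 hQ2 r hr hr2 (fun e he n hn => by
    have e1 : ∑ m ∈ Icc 1 n, bf (A.E i τ) (A.F i x) ((2 ^ e * m : ℕ) : ℤ) =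
        ∑ m ∈ Icc 1 n, bf (A.E (A.sh^[e] i) (τ - e * A.w)) (A.F i x) ((m : ℕ) : ℤ) := by
      apply sum_congr rfl
      intro m hm'
      rw [mem_Icc] at hm'
      have hm0 : (0 : ℤ) < m := by exact_mod_cast hm'.1
      have h6 : (0 : ℤ) < ((2 ^ e * m : ℕ) : ℤ) := by exact_mod_cast Nat.mul_pos (by positivity) hm'.1
      unfold bf
      simp only [Int.toNat_natCast, hm0, h6, true_and, A.two_pow e i τ m hm'.1]
    rw [e1, bf_sum]
    have hn' : n ≤ 32 * (Q * N * r) := by exact_mod_cast hn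
    have h3 := g1 e (mem_range.2 (by omega)) (τ - e * A.w) (by
      have h7 : κm ≤ κ e := hκm e he
      have h8 : (e : ℝ) * A.w ≤ E0 * A.w := mul_le_mul_of_nonneg_right (by exact_mod_cast he) A.hw
      have h9 : 0 ≤ (e : ℝ) * A.w := mul_nonneg (Nat.cast_nonneg _) A.hw
      have h10 : 0 ≤ Real.sqrt (Real.log (Q * N * r : ℕ)) := Real.sqrt_nonneg _
      have h11 := mul_le_mul_of_nonneg_right h7 h10
      obtain ⟨t1, t2⟩ := abs_le.1 hτ
      rw [abs_le]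
      constructor <;> nlinarith) n hn'
    refine h3.trans (le_of_eq ?_)
    push_cast
    ring) u v hu hv
  refine le_trans (le_of_eq ?_) key
  congr 1
  unfold SQ
  apply sum_congr rfl
  intro a ha
  apply sum_congr rfl
  intro b hb
  rw [mem_Ioc] at ha
  rw [mem_Icc] at hb
  have hn0 : (0 : ℤ) < ((a * (r * b) : ℕ) : ℤ) := by
    exact_mod_cast Nat.mul_pos (by omega) (Nat.mul_pos hr1 hb.1)
  congr 1
  unfold bf ic
  simp only [Int.toNat_natCast, hn0, true_and]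

/-- the pairs with a small second factor -/
theorem small_pairs {Q N r : ℕ} (hQ : 1 ≤ Q) (hr : 1 ≤ r) {y : ℝ} (hy : 0 ≤ y) :
    S1 Q N r (fun n : ℕ => if (n : ℝ) ≤ Q * r * y then (1 : ℝ) else 0) ≤ Q * y := by
  rw [S1_eq]
  have hQ0 : (0 : ℝ) < Q := by exact_mod_cast hQ
  have hr0 : (0 : ℝ) < r := by exact_mod_cast hr
  have h1 : ∀ a ∈ Ioc Q (2 * Q), ∑ b ∈ Icc 1 N, (if ((a * (r * b) : ℕ) : ℝ) ≤ Q * r * y then (1 : ℝ) else 0) ≤ y := by
    intro a ha
    rw [mem_Ioc] at ha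
    have ha0 : (Q : ℝ) ≤ a := by exact_mod_cast ha.1.le
    have h2 : ∑ b ∈ Icc 1 N, (if ((a * (r * b) : ℕ) : ℝ) ≤ Q * r * y then (1 : ℝ) else 0) ≤
        ∑ b ∈ Icc 1 N, (if (b : ℝ) ≤ y then (1 : ℝ) else 0) := by
      apply sum_le_sum
      intro b _
      by_cases h : (b : ℝ) ≤ y
      · rw [if_pos h]; split_ifs <;> norm_num
      · rw [if_neg h, if_neg]
        push Not at h ⊢
        push_cast
        calc (Q : ℝ) * r * y < Q * r * b := mul_lt_mul_of_pos_left h (by positivity)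
          _ = Q * (r * b) := by ring
          _ ≤ a * (r * b) := mul_le_mul_of_nonneg_right ha0 (by positivity)
    refine h2.trans ?_
    rw [← sum_filter, sum_const, nsmul_eq_mul, mul_one]
    have h3 : ((Icc 1 N).filter (fun b : ℕ => (b : ℝ) ≤ y)).card ≤ (Icc 1 ⌊y⌋₊).card := by
      apply card_le_card
      intro b hb
      rw [mem_filter, mem_Icc] at hb
      rw [mem_Icc]
      exact ⟨hb.1.1, Nat.le_floor hb.2⟩
    rw [Nat.card_Icc, Nat.add_sub_cancel] at h3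
    have h4 : (((Icc 1 N).filter (fun b : ℕ => (b : ℝ) ≤ y)).card : ℝ) ≤ (⌊y⌋₊ : ℝ) := by exact_mod_cast h3
    exact h4.trans (Nat.floor_le hy)
  refine (sum_le_sum h1).trans ?_
  rw [sum_const, Nat.card_Ioc, nsmul_eq_mul, show 2 * Q - Q = Q by omega]

/-- THE PRODUCT LAW. -/
theorem prod_law {s : ℤ} (hs : s = 1 ∨ s = -1) {R : ℕ} {ι : Type} (A : Fam s R ι) (i : ι) (x : ℝ) :
    PL (fun n => A.E i (thr A.α A.σ x (Real.log n)) n) (A.F i x) := by
  intro ε hε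
  obtain ⟨ε', hε'⟩ : ∃ ε' : ℝ, ε' = min ε 1 / 5 := ⟨_, rfl⟩
  have hmin : 0 < min ε 1 := lt_min hε one_pos
  have hε'0 : 0 < ε' := by rw [hε']; positivity
  have hε'1 : ε' ≤ 1 := by rw [hε']; have := min_le_right ε 1; linarith
  have hε'5 : 5 * ε' ≤ ε := by rw [hε']; have := min_le_left ε 1; linarith
  obtain ⟨ϑ, h0, H⟩ := prod_fix hs A i x hε'0 hε'1
  refine ⟨ϑ, h0, fun α hα => ?_⟩
  obtain ⟨κ, hκ, N1, hfix⟩ := H α hα
  have tl : Tendsto (fun N : ℕ => Real.log N) atTop atTop :=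
    Real.tendsto_log_atTop.comp tendsto_natCast_atTop_atTop
  have t2 : Tendsto (fun L : ℝ => Real.log L / L ^ (1 / 2 : ℝ)) atTop (𝓝 0) :=
    (isLittleO_log_rpow_atTop (by norm_num)).tendsto_div_nhds_zero
  set C : ℝ := 3 * (|A.α| + |x| * A.σ) with hC
  have hC0 : 0 ≤ C := by have := A.hσ; positivity
  have t3 : ∀ᶠ N : ℕ in atTop, C * (Real.log (Real.log N) / (Real.log N) ^ (1 / 2 : ℝ)) < κ := by
    have := (t2.comp tl).const_mul C
    rw [mul_zero] at this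
    exact this.eventually_lt_const hκ
  obtain ⟨N3, hN3⟩ := eventually_atTop.1 (t3.and (tl.eventually_ge_atTop (max 3 (1 / ε'))))
  refine ⟨max N1 (max N3 2), fun N hN Q hQ1 hQ2 r hr hr2 u v hu hv => ?_⟩
  have hNN1 : N1 ≤ N := (le_max_left _ _).trans hN
  have hNN3 : N3 ≤ N := ((le_max_left _ _).trans (le_max_right _ _)).trans hN
  have hN2 : 2 ≤ N := ((le_max_right _ _).trans (le_max_right _ _)).trans hN
  have hN0 : (0 : ℝ) < N := by exact_mod_cast (by omega : 0 < N)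
  have hQp : 0 < Q := by
    have : (0 : ℝ) < Q := lt_of_lt_of_le (Real.rpow_pos_of_pos hN0 α) hQ1
    exact_mod_cast this
  have hr1 : 1 ≤ r := by omega
  have hXN : N ≤ Q * N * r := by
    calc N = 1 * N * 1 := by ring
      _ ≤ Q * N * r := Nat.mul_le_mul (Nat.mul_le_mul_right _ hQp) hr1
  obtain ⟨X, hX⟩ : ∃ X : ℕ, X = Q * N * r := ⟨_, rfl⟩
  rw [← hX] at hXN
  obtain ⟨g1, g2⟩ := hN3 X (hNN3.trans hXN)
  have hX0 : (0 : ℝ) < X := by exact_mod_cast (by omega : 0 < X)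
  set L := Real.log X with hL
  have hL3 : 3 ≤ L := (le_max_left _ _).trans g2
  have hL0 : 0 < L := by linarith
  have hLε : 1 / ε' ≤ L := (le_max_right _ _).trans g2
  have hLL : 0 ≤ Real.log L := Real.log_nonneg (by linarith)
  have hLL1 : 1 ≤ Real.log L := by
    rw [Real.le_log_iff_exp_le hL0]
    have := Real.exp_one_lt_d9
    linarith
  set Λ := thr A.α A.σ x L with hΛ
  set B := κ * Real.sqrt L with hB
  have hs0 : 0 < Real.sqrt L := Real.sqrt_pos.2 hL0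
  have hB0 : 0 < B := by positivity
  have hvar : ∀ n : ℕ, X / L ^ 2 < n → (n : ℝ) ≤ 2 * X → |thr A.α A.σ x (Real.log n) - Λ| ≤ B := by
    intro n h1 h2
    have hn0 : (0 : ℝ) < n := lt_of_le_of_lt (by positivity) h1
    have b1 : L - 2 * Real.log L ≤ Real.log n := by
      have h3 : Real.log (X / L ^ 2) = L - 2 * Real.log L := by
        rw [Real.log_div hX0.ne' (by positivity), Real.log_pow]
        push_cast; ring
      rw [← h3]
      exact Real.log_le_log (by positivity) h1.le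
    have b2 : Real.log n ≤ L + 1 := by
      have h3 := Real.log_le_log hn0 h2
      rw [Real.log_mul (by norm_num) hX0.ne'] at h3
      have := Real.log_two_lt_d9
      linarith
    have b3 : 0 ≤ Real.log n := Real.log_natCast_nonneg n
    have b4 : |Real.log n - L| ≤ 3 * Real.log L := by rw [abs_le]; constructor <;> linarith
    have b5 : |Real.sqrt (Real.log n) - Real.sqrt L| ≤ 3 * Real.log L := by
      have h5 : (Real.sqrt (Real.log n) - Real.sqrt L) * (Real.sqrt (Real.log n) + Real.sqrt L) = Real.log n - L := by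
        have h6 := Real.sq_sqrt b3
        have h7 := Real.sq_sqrt hL0.le
        nlinarith
      have h8 : 1 ≤ Real.sqrt L := Real.one_le_sqrt.2 (by linarith)
      have h9 : 0 ≤ Real.sqrt (Real.log n) := Real.sqrt_nonneg _
      have h10 : |Real.sqrt (Real.log n) - Real.sqrt L| * (Real.sqrt (Real.log n) + Real.sqrt L) ≤ 3 * Real.log L := by
        rw [← abs_of_nonneg (by positivity : 0 ≤ Real.sqrt (Real.log n) + Real.sqrt L), ← abs_mul, h5]
        exact b4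
      have h11 := abs_nonneg (Real.sqrt (Real.log n) - Real.sqrt L)
      nlinarith
    have e : thr A.α A.σ x (Real.log n) - Λ = A.α * (Real.log n - L) + x * (A.σ * (Real.sqrt (Real.log n) - Real.sqrt L)) := by
      rw [hΛ]; unfold thr; ring
    rw [e]
    have a1 : |A.α * (Real.log n - L)| ≤ |A.α| * (3 * Real.log L) := by
      rw [abs_mul]; exact mul_le_mul_of_nonneg_left b4 (abs_nonneg _)
    have a2 : |x * (A.σ * (Real.sqrt (Real.log n) - Real.sqrt L))| ≤ |x| * A.σ * (3 * Real.log L) := by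
      rw [abs_mul, abs_mul, abs_of_pos A.hσ, mul_assoc]
      exact mul_le_mul_of_nonneg_left (mul_le_mul_of_nonneg_left b5 A.hσ.le) (abs_nonneg _)
    refine (abs_add_le _ _).trans ?_
    have a3 : C * Real.log L ≤ B := by
      have h12 : C * (Real.log L / L ^ (1 / 2 : ℝ)) * Real.sqrt L ≤ κ * Real.sqrt L :=
        mul_le_mul_of_nonneg_right g1.le hs0.le
      have h13 : C * (Real.log L / L ^ (1 / 2 : ℝ)) * Real.sqrt L = C * Real.log L := by
        rw [← Real.sqrt_eq_rpow]; field_simp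
      rw [h13] at h12
      exact h12
    have e2 : C * Real.log L = |A.α| * (3 * Real.log L) + |x| * A.σ * (3 * Real.log L) := by rw [hC]; ring
    linarith
  have f1 := hfix N hNN1 Q hQ1 hQ2 r hr hr2 (Λ + B) (by rw [← hX, add_sub_cancel_left, abs_of_pos hB0])
  have f2 := hfix N hNN1 Q hQ1 hQ2 r hr hr2 (Λ - B) (by rw [← hX, sub_sub_cancel_left, abs_neg, abs_of_pos hB0])
  have one1 : ∀ a : ℕ, |(fun _ : ℕ => (1 : ℝ)) a| ≤ 1 := fun a => by simp
  have f3 := f1 u v hu hv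
  have f4 := f1 (fun _ => 1) (fun _ => 1) one1 one1
  have f5 := f2 (fun _ => 1) (fun _ => 1) one1 one1
  have hQN : (0 : ℝ) ≤ Q * N := by positivity
  -- the difference
  set y : ℝ := N / L ^ 2 with hy
  have hy0 : 0 ≤ y := by positivity
  have hXy : (Q : ℝ) * r * y = X / L ^ 2 := by
    rw [hX, hy]; push_cast; ring
  have hsm := small_pairs (Q := Q) (N := N) (r := r) hQp hr1 hy0
  rw [hXy] at hsm
  have hsm2 : (Q : ℝ) * y ≤ ε' * (Q * N) := by
    rw [hy]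
    have h5 : 1 ≤ ε' * L ^ 2 := by
      rw [div_le_iff₀ hε'0] at hLε
      nlinarith
    have h6 : (Q : ℝ) * (N / L ^ 2) = Q * N * (1 / L ^ 2) := by ring
    rw [h6]
    have h7 : 1 / L ^ 2 ≤ ε' := by rw [div_le_iff₀ (by positivity)]; linarith
    have := mul_le_mul_of_nonneg_left h7 hQN
    linarith
  have hdiff : |SQ Q N r u v (fun n => ic (fun n => A.E i (thr A.α A.σ x (Real.log n)) n) n - ic (A.E i (Λ + B)) n)| ≤
      S1 Q N r (fun n => (ic (A.E i (Λ + B)) n - ic (A.E i (Λ - B)) n) + (if (n : ℝ) ≤ X / L ^ 2 then (1 : ℝ) else 0)) := by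
    apply SQ_abs hu hv
    intro a b ha1 ha2 hb1 hb2
    set n := a * (r * b) with hn
    have hnX : (n : ℝ) ≤ 2 * X := by
      have : n ≤ 2 * X := by
        rw [hn, hX]
        calc a * (r * b) ≤ (2 * Q) * (r * N) := Nat.mul_le_mul ha2 (Nat.mul_le_mul_left _ hb2)
          _ = 2 * (Q * N * r) := by ring
      exact_mod_cast this
    have hmon : A.E i (Λ - B) n → A.E i (Λ + B) n := A.mono i _ _ n (by linarith)
    have i1 := ic_nonneg (A.E i (Λ + B)) n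
    have i2 : ic (A.E i (Λ - B)) n ≤ ic (A.E i (Λ + B)) n := by
      unfold ic
      by_cases h : A.E i (Λ - B) n
      · rw [if_pos h, if_pos (hmon h)]
      · rw [if_neg h]; split_ifs <;> norm_num
    by_cases hs : (n : ℝ) ≤ X / L ^ 2
    · rw [if_pos hs]
      have j1 := ic_nonneg (fun n => A.E i (thr A.α A.σ x (Real.log n)) n) n
      have j2 := ic_le_one (fun n => A.E i (thr A.α A.σ x (Real.log n)) n) n
      have j3 := ic_le_one (A.E i (Λ + B)) n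
      rw [abs_le]
      constructor <;> linarith
    · rw [if_neg hs, add_zero]
      push Not at hs
      obtain ⟨c1, c2⟩ := abs_le.1 (hvar n hs hnX)
      have m1 : A.E i (thr A.α A.σ x (Real.log n)) n → A.E i (Λ + B) n := A.mono i _ _ n (by linarith)
      have m2 : A.E i (Λ - B) n → A.E i (thr A.α A.σ x (Real.log n)) n := A.mono i _ _ n (by linarith)
      unfold ic
      by_cases h1 : A.E i (Λ - B) n
      · rw [if_pos (m2 h1), if_pos (m1 (m2 h1)), if_pos h1]; norm_num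
      · rw [if_neg h1]
        by_cases h2 : A.E i (thr A.α A.σ x (Real.log n)) n
        · rw [if_pos h2, if_pos (m1 h2)]; norm_num
        · rw [if_neg h2]
          split_ifs <;> norm_num
  have e1 : S1 Q N r (fun n => (ic (A.E i (Λ + B)) n - ic (A.E i (Λ - B)) n) +
      (if (n : ℝ) ≤ X / L ^ 2 then (1 : ℝ) else 0)) =
      (SQ Q N r (fun _ => 1) (fun _ => 1) (fun n => ic (A.E i (Λ + B)) n - A.F i x) -
       SQ Q N r (fun _ => 1) (fun _ => 1) (fun n => ic (A.E i (Λ - B)) n - A.F i x)) +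
      S1 Q N r (fun n : ℕ => if (n : ℝ) ≤ X / L ^ 2 then (1 : ℝ) else 0) := by
    unfold S1
    rw [← SQ_sub, ← SQ_add]
    congr 1
    funext n
    ring
  rw [e1] at hdiff
  have e2 : SQ Q N r u v (fun n => ic (fun n => A.E i (thr A.α A.σ x (Real.log n)) n) n - A.F i x) =
      SQ Q N r u v (fun n => ic (fun n => A.E i (thr A.α A.σ x (Real.log n)) n) n - ic (A.E i (Λ + B)) n) +
      SQ Q N r u v (fun n => ic (A.E i (Λ + B)) n - A.F i x) := by
    rw [← SQ_add]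
    congr 1
    funext n
    ring
  rw [e2]
  refine (abs_add_le _ _).trans ?_
  rw [abs_le] at f4 f5
  have := mul_le_mul_of_nonneg_right hε'5 hQN
  linarith [f4.1, f4.2, f5.1, f5.2]

end Pool.Agent.X62.BF
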