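import Pool.Agent.X62.BF.Law

/-! Laws along the products of two integers: rules. -/

set_option autoImplicit false

namespace Pool.Agent.X62.BF

open Finset Filter Topology Pool.Agent.H499R2.ND
open scoped Classical

theorem one_abs (a : ℕ) : |(fun _ : ℕ => (1 : ℝ)) a| ≤ 1 := by simp

/-- change of the property: squeeze by approximations which hold for all large `n` -/
theorem PL_squeeze {Q : ℕ → Prop} {l : ℝ} (H : ∀ η : ℝ, 0 < η → ∃ (P R : ℕ → Prop) (l1 l2 : ℝ) (n0 : ℕ),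
    (∀ n, n0 ≤ n → P n → Q n) ∧ (∀ n, n0 ≤ n → Q n → R n) ∧ PL P l1 ∧ PL R l2 ∧ l1 ≤ l ∧ l ≤ l2 ∧ l2 - l1 ≤ η) :
    PL Q l := by
  intro ε hε
  obtain ⟨P, R, l1, l2, n0, h1, h2, h3, h4, h5, h6, h7⟩ := H (ε / 8) (by positivity)
  obtain ⟨ϑ1, t1, k1⟩ := h3 (ε / 8) (by positivity)
  obtain ⟨ϑ2, t2, k2⟩ := h4 (ε / 8) (by positivity)
  refine ⟨min ϑ1 ϑ2, lt_min t1 t2, fun α hα => ?_⟩
  obtain ⟨N1, k1⟩ := k1 α hα
  obtain ⟨N2, k2⟩ := k2 α hα
  have tl : Tendsto (fun N : ℕ => (N : ℝ) ^ α) atTop atTop :=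
    (tendsto_rpow_atTop hα).comp tendsto_natCast_atTop_atTop
  obtain ⟨N3, hN3⟩ := eventually_atTop.1 (tl.eventually_ge_atTop (n0 : ℝ))
  refine ⟨max (max N1 N2) (max N3 1), fun N hN M hM1 hM2 r hr hr2 u v hu hv => ?_⟩
  have hN1 : N1 ≤ N := ((le_max_left _ _).trans (le_max_left _ _)).trans hN
  have hN2 : N2 ≤ N := ((le_max_right _ _).trans (le_max_left _ _)).trans hN
  have hN3' : N3 ≤ N := ((le_max_left _ _).trans (le_max_right _ _)).trans hN
  have hN4 : 1 ≤ N := ((le_max_right _ _).trans (le_max_right _ _)).trans hN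
  have hNr : (1 : ℝ) ≤ N := by exact_mod_cast hN4
  have m1 : (N : ℝ) ^ min ϑ1 ϑ2 ≤ (N : ℝ) ^ ϑ1 := Real.rpow_le_rpow_of_exponent_le hNr (min_le_left _ _)
  have m2 : (N : ℝ) ^ min ϑ1 ϑ2 ≤ (N : ℝ) ^ ϑ2 := Real.rpow_le_rpow_of_exponent_le hNr (min_le_right _ _)
  have hn0 : n0 ≤ M := by exact_mod_cast (hN3 N hN3').trans hM1
  have hr1 : 1 ≤ r := by omega
  have f1 := k1 N hN1 M hM1 (hM2.trans m1) r hr (hr2.trans m1) u v hu hv
  have f2 := k1 N hN1 M hM1 (hM2.trans m1) r hr (hr2.trans m1) (fun _ => 1) (fun _ => 1) one_abs one_abs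
  have f3 := k2 N hN2 M hM1 (hM2.trans m2) r hr (hr2.trans m2) (fun _ => 1) (fun _ => 1) one_abs one_abs
  have hMN : (0 : ℝ) ≤ (M : ℝ) * N := by positivity
  have key : |SQ M N r u v (fun n => ic Q n - ic P n)| ≤ S1 M N r (fun n => ic R n - ic P n) := by
    apply SQ_abs hu hv
    intro a b ha _ hb _
    have hn : n0 ≤ a * (r * b) := by
      calc n0 ≤ a * 1 := by omega
        _ ≤ a * (r * b) := Nat.mul_le_mul_left _ (Nat.mul_pos hr1 hb)
    have c1 := h1 _ hn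
    have c2 := h2 _ hn
    unfold ic
    by_cases hP : P (a * (r * b))
    · rw [if_pos (c1 hP), if_pos hP, if_pos (c2 (c1 hP))]; norm_num
    · rw [if_neg hP]
      by_cases hQ : Q (a * (r * b))
      · rw [if_pos hQ, if_pos (c2 hQ)]; norm_num
      · rw [if_neg hQ]; split_ifs <;> norm_num
  have e1 : S1 M N r (fun n => ic R n - ic P n) =
      SQ M N r (fun _ => 1) (fun _ => 1) (fun n => ic R n - l2) -
      SQ M N r (fun _ => 1) (fun _ => 1) (fun n => ic P n - l1) + (l2 - l1) * (M * N) := by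
    rw [← S1_const M N r (l2 - l1)]
    unfold S1
    rw [← SQ_sub, ← SQ_add]
    congr 1
    funext n
    ring
  have e2 : SQ M N r u v (fun n => ic Q n - l) = SQ M N r u v (fun n => ic Q n - ic P n) +
      SQ M N r u v (fun n => ic P n - l1) + SQ M N r u v (fun _ => l1 - l) := by
    rw [← SQ_add, ← SQ_add]
    congr 1
    funext n
    ring
  have g1 : |SQ M N r u v (fun _ => l1 - l)| ≤ ε / 8 * (M * N) := by
    refine (SQ_abs hu hv (g := fun _ => ε / 8) (fun _ _ _ _ _ _ => ?_)).trans (le_of_eq (S1_const _ _ _ _))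
    show |l1 - l| ≤ ε / 8
    rw [abs_le]; constructor <;> linarith
  rw [e2]
  rw [e1] at key
  refine (abs_add_three _ _ _).trans ?_
  rw [abs_le] at f2 f3
  have h9 : (l2 - l1) * (M * N) ≤ ε / 8 * ((M : ℝ) * N) := mul_le_mul_of_nonneg_right h7 hMN
  have h10 : 0 ≤ ε / 8 * ((M : ℝ) * N) := by positivity
  linarith [f2.1, f2.2, f3.1, f3.2]

theorem PL_congr {P Q : ℕ → Prop} {l : ℝ} (n0 : ℕ) (h : ∀ n, n0 ≤ n → (P n ↔ Q n)) (H : PL P l) : PL Q l :=
  PL_squeeze fun η hη => ⟨P, P, l, l, n0, fun n hn => (h n hn).1, fun n hn => (h n hn).2, H, H, le_rfl, le_rfl, by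
    linarith⟩

/-- linear combinations -/
theorem PL_lin {P Q R : ℕ → Prop} {l l' : ℝ} {c : ℝ} (hc : |c| ≤ 1) (hP : PL P l) (hQ : PL Q l')
    (hR : ∀ n, ic R n = ic Q n + c * ic P n) : PL R (l' + c * l) := by
  intro ε hε
  obtain ⟨ϑ1, t1, k1⟩ := hP (ε / 2) (by positivity)
  obtain ⟨ϑ2, t2, k2⟩ := hQ (ε / 2) (by positivity)
  refine ⟨min ϑ1 ϑ2, lt_min t1 t2, fun α hα => ?_⟩
  obtain ⟨N1, k1⟩ := k1 α hα
  obtain ⟨N2, k2⟩ := k2 α hα
  refine ⟨max (max N1 N2) 1, fun N hN M hM1 hM2 r hr hr2 u v hu hv => ?_⟩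
  have hN1 : N1 ≤ N := ((le_max_left _ _).trans (le_max_left _ _)).trans hN
  have hN2 : N2 ≤ N := ((le_max_right _ _).trans (le_max_left _ _)).trans hN
  have hN4 : 1 ≤ N := (le_max_right _ _).trans hN
  have hNr : (1 : ℝ) ≤ N := by exact_mod_cast hN4
  have m1 : (N : ℝ) ^ min ϑ1 ϑ2 ≤ (N : ℝ) ^ ϑ1 := Real.rpow_le_rpow_of_exponent_le hNr (min_le_left _ _)
  have m2 : (N : ℝ) ^ min ϑ1 ϑ2 ≤ (N : ℝ) ^ ϑ2 := Real.rpow_le_rpow_of_exponent_le hNr (min_le_right _ _)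
  have f1 := k1 N hN1 M hM1 (hM2.trans m1) r hr (hr2.trans m1) u (fun b => c * v b) hu (fun b => by
    rw [abs_mul]; exact mul_le_one₀ hc (abs_nonneg _) (hv b))
  have f2 := k2 N hN2 M hM1 (hM2.trans m2) r hr (hr2.trans m2) u v hu hv
  have e : SQ M N r u v (fun n => ic R n - (l' + c * l)) =
      SQ M N r u v (fun n => ic Q n - l') + SQ M N r u (fun b => c * v b) (fun n => ic P n - l) := by
    unfold SQ
    rw [← sum_add_distrib]
    apply sum_congr rfl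
    intro a _
    rw [← sum_add_distrib]
    apply sum_congr rfl
    intro b _
    beta_reduce
    rw [hR]; ring
  rw [e]
  refine (abs_add_le _ _).trans ?_
  linarith

theorem PL_or {P Q R : ℕ → Prop} {l l' : ℝ} (hP : PL P l) (hQ : PL Q l') (hd : ∀ n, P n → ¬ Q n)
    (hR : ∀ n, R n ↔ P n ∨ Q n) : PL R (l + l') := by
  have h := PL_lin (c := 1) (R := R) (by simp) hQ hP (fun n => by
    unfold ic
    by_cases h1 : P n
    · rw [if_pos ((hR n).2 (Or.inl h1)), if_pos h1, if_neg (hd n h1)]; ring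
    · by_cases h2 : Q n
      · rw [if_pos ((hR n).2 (Or.inr h2)), if_neg h1, if_pos h2]; ring
      · rw [if_neg (fun h3 => by have := (hR n).1 h3; tauto), if_neg h1, if_neg h2]; ring)
  rwa [one_mul] at h

theorem PL_diff {P Q R : ℕ → Prop} {l l' : ℝ} (hP : PL P l) (hQ : PL Q l') (hd : ∀ n, P n → Q n)
    (hR : ∀ n, R n ↔ Q n ∧ ¬ P n) : PL R (l' - l) := by
  have h := PL_lin (c := -1) (R := R) (by simp) hP hQ (fun n => by
    unfold ic
    by_cases h1 : P n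
    · rw [if_neg (fun h3 => ((hR n).1 h3).2 h1), if_pos (hd n h1), if_pos h1]; ring
    · by_cases h2 : Q n
      · rw [if_pos ((hR n).2 ⟨h2, h1⟩), if_pos h2, if_neg h1]; ring
      · rw [if_neg (fun h3 => h2 ((hR n).1 h3).1), if_neg h2, if_neg h1]; ring)
  have e : l' + -1 * l = l' - l := by ring
  rwa [e] at h

theorem PL_true {R : ℕ → Prop} (hR : ∀ n, R n) : PL R 1 := by
  intro ε hε
  refine ⟨1, one_pos, fun α hα => ⟨0, fun N hN M hM1 hM2 r hr hr2 u v hu hv => ?_⟩⟩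
  have : SQ M N r u v (fun n => ic R n - 1) = 0 := by
    unfold SQ
    apply sum_eq_zero
    intro a _
    apply sum_eq_zero
    intro b _
    unfold ic
    beta_reduce
    rw [if_pos (hR _)]; ring
  rw [this, abs_zero]
  positivity

theorem PL_not {P R : ℕ → Prop} {l : ℝ} (hP : PL P l) (hR : ∀ n, R n ↔ ¬ P n) : PL R (1 - l) :=
  PL_diff hP (PL_true (R := fun _ => True) (fun _ => trivial)) (fun _ _ => trivial) (fun n => by
    rw [hR n, true_and])

theorem Fam_PL {s : ℤ} (hs : s = 1 ∨ s = -1) {R : ℕ} {ι : Type} (A : Pool.Agent.Y964.LW.Fam s R ι) (i : ι) (x : ℝ) :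
    PL (fun n => A.E i (Pool.Agent.Y964.LW.thr A.α A.σ x (Real.log n)) n) (A.F i x) := prod_law hs A i x

end Pool.Agent.X62.BF
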