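import Pool.Agent.X62.BE.Shift
import Pool.Agent.X62.BF.Joint
import Pool.Agent.Y964.LW.C9

/-! Sums have the total stopping time of the largest summand. -/

set_option autoImplicit false

namespace Pool.Agent.X62.BF

open Finset Pool.Agent.H320R2.PD Pool.Agent.H499R2.ND Pool.Agent.H499R2.CO Pool.Agent.H376R2.MR
  Pool.Agent.W41.FU Pool.Agent.W41 Pool.Agent.W41.MU Pool.Agent.TH926.BL Pool.Agent.X62.BE
open scoped Classical

theorem Tz_low (t : ℕ) : ∀ x : ℤ, 0 ≤ x → x ≤ 2 ^ t * (Tz 1)^[t] x := by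
  induction t with
  | zero => intro x _; simp
  | succ t ih =>
    intro x hx
    rw [Function.iterate_succ_apply, pow_succ]
    have h1 : x ≤ 2 * Tz 1 x := by
      unfold Tz
      split_ifs <;> omega
    have h2 : 0 ≤ Tz 1 x := by omega
    have h3 := ih _ h2
    nlinarith

/-- almost all `n` have the same total stopping time as `n + r` -/
theorem shift_same {ε : ℝ} (hε : 0 < ε) (hε1 : ε ≤ 1) :
    ∃ ϑ : ℝ, 0 < ϑ ∧ ∃ N0 : ℕ, ∀ N : ℕ, N0 ≤ N → ∀ r : ℕ, (r : ℝ) ≤ (N : ℝ) ^ ϑ →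
    (#{n ∈ Icc 1 N | ¬ ∃ t : ℕ, (Tz 1)^[t] ((n : ℕ) : ℤ) = (Tz 1)^[t] ((n : ℤ) + r) ∧
        2 < (Tz 1)^[t] ((n : ℕ) : ℤ)} : ℝ) ≤ ε * N := by
  have hsm : (1 : ℤ) % 2 = 1 := by norm_num
  obtain ⟨θ, hθ, k0, hq⟩ := q_quant (show 0 < ε / 8 by positivity) (by linarith)
  obtain ⟨k1, hk1⟩ : ∃ k1 : ℕ, ∀ k : ℕ, k1 ≤ k → 4 ≤ ε * (2 : ℝ) ^ k := by
    obtain ⟨k1, h1⟩ := pow_unbounded_of_one_lt (4 / ε) (one_lt_two (α := ℝ))
    refine ⟨k1, fun k hk => ?_⟩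
    have h2 : (2 : ℝ) ^ k1 ≤ 2 ^ k := pow_le_pow_right₀ (by norm_num) hk
    have h3 : 4 / ε ≤ 2 ^ k := by linarith
    rw [div_le_iff₀ hε] at h3
    linarith
  refine ⟨θ / 4, by positivity, 2 ^ (2 * (k0 + k1) + 4), fun N hN r hr => ?_⟩
  have hN4 : 16 ≤ N := by
    have : 2 ^ 4 ≤ 2 ^ (2 * (k0 + k1) + 4) := Nat.pow_le_pow_right (by norm_num) (by omega)
    omega
  have hNp : (0 : ℝ) < N := by exact_mod_cast (by omega : 0 < N)
  have hN0 : N ≠ 0 := by omega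
  set K := Nat.log 2 N with hK
  have hK1 : 2 ^ K ≤ N := Nat.pow_log_le_self 2 hN0
  have hK2 : N < 2 ^ (K + 1) := Nat.lt_pow_succ_log_self (by norm_num) N
  have hKK : 2 * (k0 + k1) + 4 ≤ K := by
    rw [hK]; exact (Nat.le_log_iff_pow_le (by norm_num) hN0).2 hN
  set k := K / 2 with hk
  have hrk : (r : ℝ) ≤ (2 : ℝ) ^ (θ * k) := by
    have h1 : (N : ℝ) ≤ (2 : ℝ) ^ (4 * (k : ℝ)) := by
      have h2 : N < 2 ^ (4 * k) := lt_of_lt_of_le hK2 (Nat.pow_le_pow_right (by norm_num) (by omega))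
      have h3 : (N : ℝ) < ((2 ^ (4 * k) : ℕ) : ℝ) := by exact_mod_cast h2
      rw [show (4 * (k : ℝ)) = ((4 * k : ℕ) : ℝ) by push_cast; ring, Real.rpow_natCast]
      push_cast at h3
      exact h3.le
    calc (r : ℝ) ≤ (N : ℝ) ^ (θ / 4) := hr
      _ ≤ ((2 : ℝ) ^ (4 * (k : ℝ))) ^ (θ / 4) := Real.rpow_le_rpow hNp.le h1 (by positivity)
      _ = (2 : ℝ) ^ (θ * k) := by rw [← Real.rpow_mul (by norm_num)]; congr 1; ring
  have hqk := hq k (by omega) ((r : ℕ) : ℤ) (by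
    push_cast
    rw [abs_of_nonneg (Nat.cast_nonneg _)]; exact hrk)
  have hper : ∀ n : ℕ, (if surv 1 k (0, (r : ℤ)) ((n + 2 ^ k : ℕ) : ℤ) then (1 : ℝ) else 0) =
      if surv 1 k (0, (r : ℤ)) ((n : ℕ) : ℤ) then (1 : ℝ) else 0 := by
    intro n
    have e : ((n + 2 ^ k : ℕ) : ℤ) = (n : ℤ) + 1 * 2 ^ k := by push_cast; ring
    rw [e]
    simp only [surv_periodic hsm]
  set m := N / 2 ^ k + 1 with hm
  have h2k : 0 < 2 ^ k := by positivity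
  have hmN : N < m * 2 ^ k := by
    rw [hm, add_mul, one_mul]
    have := Nat.div_add_mod N (2 ^ k)
    have h3 := Nat.mod_lt N h2k
    rw [Nat.mul_comm] at this
    omega
  have hmN2 : m * 2 ^ k ≤ 2 * N := by
    rw [hm, add_mul, one_mul]
    have h3 := Nat.div_mul_le_self N (2 ^ k)
    have h4 : 2 ^ k ≤ 2 ^ K := Nat.pow_le_pow_right (by norm_num) (by omega)
    omega
  have hcount := sum_periods (fun n : ℕ => if surv 1 k (0, (r : ℤ)) ((n : ℕ) : ℤ) then (1 : ℝ) else 0) hper m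
  have hcs := count_surv hsm k (0, (r : ℤ))
  have h1 : (#{n ∈ Icc 1 N | ¬ ∃ t : ℕ, (Tz 1)^[t] ((n : ℕ) : ℤ) = (Tz 1)^[t] ((n : ℤ) + r) ∧
      2 < (Tz 1)^[t] ((n : ℕ) : ℤ)} : ℝ) ≤
      (∑ n ∈ range (m * 2 ^ k), if surv 1 k (0, (r : ℤ)) ((n : ℕ) : ℤ) then (1 : ℝ) else 0) + 2 * 2 ^ k := by
    have h2 : #{n ∈ Icc 1 N | ¬ ∃ t : ℕ, (Tz 1)^[t] ((n : ℕ) : ℤ) = (Tz 1)^[t] ((n : ℤ) + r) ∧
        2 < (Tz 1)^[t] ((n : ℕ) : ℤ)} ≤
        #{n ∈ range (m * 2 ^ k) | surv 1 k (0, (r : ℤ)) ((n : ℕ) : ℤ)} + #(Icc 1 (2 * 2 ^ k)) := by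
      refine le_trans (card_le_card ?_) (card_union_le _ _)
      intro n hn
      rw [mem_filter, mem_Icc] at hn
      rw [mem_union, mem_filter, mem_range, mem_Icc]
      by_contra hc
      rw [not_or, not_and, not_and] at hc
      obtain ⟨c1, c2⟩ := hc
      have c3 := c1 (by omega)
      have c4 := c2 hn.1.1
      push Not at c4
      obtain ⟨t, ht1, ht⟩ := coal hsm k 0 (r : ℤ) _ c3
      apply hn.2
      refine ⟨t, ?_, ?_⟩
      · rw [ht]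
        congr 1
        ring
      · have c5 := Tz_low t (n : ℤ) (by omega)
        have c6 : (2 : ℤ) ^ t ≤ 2 ^ k := pow_le_pow_right₀ (by norm_num) ht1
        have c7 : (2 : ℤ) * 2 ^ k < n := by exact_mod_cast c4
        have c8 : (0 : ℤ) < 2 ^ t := by positivity
        by_contra hcon
        push Not at hcon
        have c9 : (2 : ℤ) ^ t * (Tz 1)^[t] (n : ℤ) ≤ 2 ^ t * 2 := mul_le_mul_of_nonneg_left hcon c8.le
        linarith
    rw [Nat.card_Icc, Nat.add_sub_cancel] at h2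
    have h3 : ((#{n ∈ range (m * 2 ^ k) | surv 1 k (0, (r : ℤ)) ((n : ℕ) : ℤ)} : ℕ) : ℝ) =
        ∑ n ∈ range (m * 2 ^ k), if surv 1 k (0, (r : ℤ)) ((n : ℕ) : ℤ) then (1 : ℝ) else 0 := by
      rw [card_filter]; push_cast; rfl
    rw [← h3]
    exact_mod_cast h2
  refine h1.trans ?_
  rw [hcount]
  have h4 : ∑ n ∈ range (2 ^ k), (if surv 1 k (0, (r : ℤ)) ((n : ℕ) : ℤ) then (1 : ℝ) else 0) =
      2 ^ k * q step (0, 0) k (0, (r : ℤ)) := hcs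
  rw [h4]
  have h5 : ((m : ℝ) * 2 ^ k) ≤ 2 * N := by exact_mod_cast hmN2
  have h6 : (0 : ℝ) < 2 ^ k := by positivity
  have hq0 : (m : ℝ) * (2 ^ k * q step (0, 0) k (0, (r : ℤ))) ≤ 2 * N * (ε / 8) := by
    have hm0 : (0 : ℝ) ≤ m := Nat.cast_nonneg _
    calc (m : ℝ) * (2 ^ k * q step (0, 0) k (0, (r : ℤ))) ≤ m * (2 ^ k * (ε / 8)) := by
          apply mul_le_mul_of_nonneg_left _ hm0
          exact mul_le_mul_of_nonneg_left hqk h6.le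
      _ = (m * 2 ^ k) * (ε / 8) := by ring
      _ ≤ 2 * N * (ε / 8) := mul_le_mul_of_nonneg_right h5 (by positivity)
  have h7 : (2 : ℝ) * 2 ^ k ≤ ε / 2 * N := by
    have c1 := hk1 k (by omega)
    have c2 : (2 : ℝ) ^ k * 2 ^ k ≤ N := by
      have : 2 ^ k * 2 ^ k ≤ N := by
        rw [← pow_add]
        exact (Nat.pow_le_pow_right (by norm_num) (by omega)).trans hK1
      exact_mod_cast this
    nlinarith
  linarith

/-- subset sums -/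
theorem sums_same {ε : ℝ} (hε : 0 < ε) (hε1 : ε ≤ 1) (k : ℕ) :
    ∃ ϑ : ℝ, 0 < ϑ ∧ ∃ N0 : ℕ, ∀ P : Fin k → ℕ, (∀ i, N0 ≤ P i) →
    (∀ i j, i < j → (P i : ℝ) ≤ (P j : ℝ) ^ ϑ) → ∀ (J : Finset (Fin k)) (hJ : J.Nonempty),
    (#{x ∈ Fintype.piFinset (fun i => Ioc (P i) (2 * P i)) | ¬ ∃ t : ℕ, (Tz 1)^[t] ((x (J.max' hJ) : ℕ) : ℤ) =
      (Tz 1)^[t] (∑ i ∈ J, (x i : ℤ)) ∧ 2 < (Tz 1)^[t] ((x (J.max' hJ) : ℕ) : ℤ)} : ℝ) ≤ ε * ∏ l, (#(Ioc (P l) (2 * P l)) : ℝ) := by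
  obtain ⟨ϑ, h0, N0, h⟩ := shift_same (show 0 < ε / 2 by positivity) (by linarith)
  have ev : ∀ᶠ x : ℝ in Filter.atTop, 1 ≤ x ∧ 2 * (k : ℝ) ≤ x ^ (ϑ / 2) :=
    (Filter.eventually_ge_atTop _).and ((tendsto_rpow_atTop (by positivity)).eventually_ge_atTop _)
  obtain ⟨N1, hN1⟩ := Filter.eventually_atTop.1 (tendsto_natCast_atTop_atTop (R := ℝ) |>.eventually ev)
  refine ⟨ϑ / 2, by positivity, max 1 (max N0 N1), fun P hP hPP J hJ => ?_⟩
  set j := J.max' hJ with hj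
  have hPj1 : 1 ≤ P j := le_trans (le_max_left _ _) (hP j)
  have hPj0 : N0 ≤ P j := le_trans (le_trans (le_max_left _ _) (le_max_right _ _)) (hP j)
  obtain ⟨z1, z2⟩ := hN1 (P j) (le_trans (le_trans (le_max_right _ _) (le_max_right _ _)) (hP j))
  have hcj : #(Ioc (P j) (2 * P j)) = P j := by rw [Nat.card_Ioc]; omega
  obtain ⟨G, hG⟩ : ∃ G : (Fin k → ℕ) → Prop, ∀ x, G x ↔
    ¬ ∃ t : ℕ, (Tz 1)^[t] ((x j : ℕ) : ℤ) = (Tz 1)^[t] (∑ i ∈ J, (x i : ℤ)) ∧ 2 < (Tz 1)^[t] ((x j : ℕ) : ℤ) := ⟨_, fun _ => Iff.rfl⟩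
  suffices hmain : ∀ x ∈ Fintype.piFinset (fun i => Ioc (P i) (2 * P i)),
      (#{p ∈ Ioc (P j) (2 * P j) | G (Function.update x j p)} : ℝ) ≤ ε * #(Ioc (P j) (2 * P j)) by
    have := one_coord (fun i => Ioc (P i) (2 * P i)) j (by
      rw [← card_pos, hcj]; omega) G hmain
    refine le_trans (le_of_eq ?_) this
    congr 2
    ext x
    rw [mem_filter, mem_filter, hG]
  intro x hx
  rw [hcj]
  set r : ℕ := ∑ i ∈ J.erase j, x i with hr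
  have hjJ : j ∈ J := max'_mem J hJ
  have hsum : ∀ p, ∑ i ∈ J, ((Function.update x j p i : ℕ) : ℤ) = (p : ℤ) + r := by
    intro p
    rw [← add_sum_erase J _ hjJ, Function.update_self, hr]
    push_cast
    congr 1
    apply sum_congr rfl
    intro i hi
    rw [Function.update_of_ne (mem_erase.1 hi).1]
  have hPj0' : (0 : ℝ) < P j := by linarith
  have hrb : (r : ℝ) ≤ ((2 * P j : ℕ) : ℝ) ^ ϑ := by
    have h1 : (r : ℝ) ≤ ∑ _i ∈ J.erase j, 2 * (P j : ℝ) ^ (ϑ / 2) := by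
      rw [hr]
      push_cast
      apply sum_le_sum
      intro i hi
      rw [mem_erase] at hi
      have h2 : i < j := lt_of_le_of_ne (le_max' J i hi.2) hi.1
      have h3 := (mem_Ioc.1 (Fintype.mem_piFinset.1 hx i)).2
      have h4 : (x i : ℝ) ≤ 2 * P i := by exact_mod_cast h3
      have h5 := hPP i j h2
      linarith
    rw [sum_const, nsmul_eq_mul] at h1
    have h6 : (#(J.erase j) : ℝ) ≤ k := by
      have : #(J.erase j) ≤ k := by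
        refine (card_le_univ _).trans ?_
        rw [Fintype.card_fin]
      exact_mod_cast this
    calc (r : ℝ) ≤ #(J.erase j) * (2 * (P j : ℝ) ^ (ϑ / 2)) := h1
      _ ≤ k * (2 * (P j : ℝ) ^ (ϑ / 2)) := mul_le_mul_of_nonneg_right h6 (by positivity)
      _ = 2 * k * (P j : ℝ) ^ (ϑ / 2) := by ring
      _ ≤ (P j : ℝ) ^ (ϑ / 2) * (P j : ℝ) ^ (ϑ / 2) := mul_le_mul_of_nonneg_right z2 (by positivity)
      _ = (P j : ℝ) ^ ϑ := by rw [← Real.rpow_add hPj0']; congr 1; ring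
      _ ≤ ((2 * P j : ℕ) : ℝ) ^ ϑ := by
          apply Real.rpow_le_rpow hPj0'.le _ h0.le
          push_cast; linarith
  have h7 := h (2 * P j) (by omega) r hrb
  have h8 : (#{p ∈ Ioc (P j) (2 * P j) | G (Function.update x j p)} : ℝ) ≤
      #{n ∈ Icc 1 (2 * P j) | ¬ ∃ t : ℕ, (Tz 1)^[t] ((n : ℕ) : ℤ) = (Tz 1)^[t] ((n : ℤ) + r) ∧
        2 < (Tz 1)^[t] ((n : ℕ) : ℤ)} := by
    have : #{p ∈ Ioc (P j) (2 * P j) | G (Function.update x j p)} ≤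
        #{n ∈ Icc 1 (2 * P j) | ¬ ∃ t : ℕ, (Tz 1)^[t] ((n : ℕ) : ℤ) = (Tz 1)^[t] ((n : ℤ) + r) ∧
        2 < (Tz 1)^[t] ((n : ℕ) : ℤ)} := by
      apply card_le_card
      intro p hp
      rw [mem_filter, mem_Ioc] at hp
      rw [mem_filter, mem_Icc]
      refine ⟨⟨by omega, hp.1.2⟩, ?_⟩
      have hp2 := hp.2
      rw [hG, hsum, Function.update_self] at hp2
      exact hp2
    exact_mod_cast this
  refine h8.trans (h7.trans (le_of_eq ?_))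
  push_cast
  ring

end Pool.Agent.X62.BF
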